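import Pool.Agent.Lib.HYP.Def2
import Pool.Agent.Lib.HYP.L.Norm

/-!
Module G.Tw of MP_950c68_ag (genus g). The isomorphism `dn D h : F[x] / (f') → F[x] / (f)`,
`θ' ↦ D θ`, for `f' = f.scaleRoots D`, `D ≠ 0`.

PROOF. `f'` is monic of the same degree `n` as `f` (`Polynomial.monic_scaleRoots_iff`,
`natDegree_scaleRoots`), and `f = f'.scaleRoots D⁻¹` (`scaleRoots_mul`-like, coefficientwise:
`coeff_scaleRoots`). Bijective: `dn D h (θ' ^ i) = D ^ i θ ^ i`: it maps the power basis to a basis; or the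
inverse is `dn D⁻¹ h'`, compositions are the identity by `AdjoinRoot.algHom_ext`. `norm_dn`:
`Algebra.norm_eq_of_algEquiv` with `AlgEquiv.ofBijective`. `sqNorm_dn`, `isSquare_dn`: from these.
`tau_dn`: for `c = mk f' P`, `P.natDegree < n` (`exists_repr`), `dn c = mk f (Σ P_i D ^ i X ^ i)`
(`P.comp (C D * X)`, same degree), so `τ (dn c) = P_{n-1} D ^ (n-1) = D ^ (n-1) τ' (c)` (`tau_mk_lt`).
`split_dn`: `W' ↦ dn W'`, `τ (dn c dn l dn l') = D ^ (n-1) τ' (c l l')`, images under the linear bijection.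
`unitAt_dn`: `dn` of the class of `P` with coefficients in `O` is the class of `P.comp (C D * X)` with
coefficients in `O`; conversely use the inverse (`D⁻¹ ∈ O`). `dn_bc`: ring homomorphisms
`AdjoinRoot f' → AdjoinRoot (f.map φ)` which agree on constants and on `θ'`
(`AdjoinRoot.ringHom_ext`). `map_scale`: `Polynomial.map_scaleRoots` (the leading coefficient of a monic
polynomial is `1`). `reg_scale`: if `f.scaleRoots D = C (π ^ 2) * a + C π * p * b + p ^ 2 * c`, apply
`scaleRoots` with `D⁻¹`, i.e. substitute: `f = D ^ (- n) f'(D x)`: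
`f = C (D ^ (-n)) * (f'.comp (C D * X))`, and
`p.comp (C D * X) = C (D ^ e) * p₁` with `p₁` monic of degree `e = p.natDegree`, coefficients in `O`.
-/

set_option autoImplicit false

open Polynomial

namespace Pool.Agent.HYP

open Pool.Agent.BSDP

variable {F : Type} [Field F] {f f' : F[X]} {D : F}

private theorem tw_inv (hD : D ≠ 0) (h : f' = f.scaleRoots D) : f = f'.scaleRoots D⁻¹ := by
  rw [h, ← scaleRoots_mul, mul_inv_cancel₀ hD, scaleRoots_one]

private theorem dn_root (h : f' = f.scaleRoots D) :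
    dn D h (AdjoinRoot.root f') = D • AdjoinRoot.root f := by
  unfold dn
  rw [AdjoinRoot.liftAlgHom_root]

private theorem dn_dn (hD : D ≠ 0) (h : f' = f.scaleRoots D) (h2 : f = f'.scaleRoots D⁻¹)
    (c : AdjoinRoot f') : dn D⁻¹ h2 (dn D h c) = c := by
  have h3 : (dn D⁻¹ h2).comp (dn D h) = AlgHom.id F _ := by
    apply AdjoinRoot.algHom_ext
    rw [AlgHom.comp_apply, dn_root, map_smul, dn_root, smul_smul, mul_inv_cancel₀ hD, one_smul,
      AlgHom.id_apply]
  exact DFunLike.congr_fun h3 c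

private theorem dn_dn' (hD : D ≠ 0) (h : f' = f.scaleRoots D) (h2 : f = f'.scaleRoots D⁻¹)
    (c : AdjoinRoot f) : dn D h (dn D⁻¹ h2 c) = c := by
  have h3 : (dn D h).comp (dn D⁻¹ h2) = AlgHom.id F _ := by
    apply AdjoinRoot.algHom_ext
    rw [AlgHom.comp_apply, dn_root, map_smul, dn_root, smul_smul, inv_mul_cancel₀ hD, one_smul,
      AlgHom.id_apply]
  exact DFunLike.congr_fun h3 c

private noncomputable def dnE (hD : D ≠ 0) (h : f' = f.scaleRoots D) :
    AdjoinRoot f' ≃ₐ[F] AdjoinRoot f :=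
  AlgEquiv.ofAlgHom (dn D h) (dn D⁻¹ (tw_inv hD h)) (AlgHom.ext (dn_dn' hD h (tw_inv hD h)))
    (AlgHom.ext (dn_dn hD h (tw_inv hD h)))

private theorem dn_mk (h : f' = f.scaleRoots D) (P : F[X]) :
    dn D h (AdjoinRoot.mk f' P) = AdjoinRoot.mk f (P.comp (C D * X)) := by
  unfold dn
  rw [AdjoinRoot.liftAlgHom_mk, Polynomial.comp, Polynomial.hom_eval₂, map_mul, AdjoinRoot.mk_X,
    AdjoinRoot.mk_C, Algebra.smul_def]
  rfl

theorem dn_bijective (hD : D ≠ 0) (h : f' = f.scaleRoots D) : Function.Bijective (dn D h) :=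
  (dnE hD h).bijective

theorem norm_dn (hf : f.Monic) (hD : D ≠ 0) (h : f' = f.scaleRoots D) (c : AdjoinRoot f') :
    Algebra.norm F (dn D h c) = Algebra.norm F c :=
  Algebra.norm_eq_of_algEquiv (dnE hD h) c

theorem sqNorm_dn (hf : f.Monic) (hD : D ≠ 0) (h : f' = f.scaleRoots D) (c : AdjoinRoot f') :
    SqNorm (dn D h c) ↔ SqNorm c := by
  unfold SqNorm
  rw [norm_dn hf hD h c]

theorem isSquare_dn (hD : D ≠ 0) (h : f' = f.scaleRoots D) (c : AdjoinRoot f') :
    IsSquare (dn D h c) ↔ IsSquare c := by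
  constructor
  · intro hs
    have h1 := hs.map (dn D⁻¹ (tw_inv hD h))
    rwa [dn_dn hD h] at h1
  · intro hs
    exact hs.map (dn D h)

theorem tau_dn (hf : f.Monic) (hf' : f'.Monic) (hD : D ≠ 0) (h : f' = f.scaleRoots D)
    (c : AdjoinRoot f') : tau hf (dn D h c) = D ^ (f.natDegree - 1) * tau hf' c := by
  have hd : f'.natDegree = f.natDegree := by rw [h, natDegree_scaleRoots]
  rcases Nat.eq_zero_or_pos f'.natDegree with h0 | h0
  · have h1 : c = 0 := eq_zero_of_tau hf' c fun j hj => absurd hj (by omega)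
    rw [h1, map_zero, map_zero, map_zero, mul_zero]
  · obtain ⟨P, hP, rfl⟩ := exists_repr hf' h0 c
    have h1 : (P.comp (C D * X)).natDegree < f.natDegree := by
      refine lt_of_le_of_lt natDegree_comp_le ?_
      have h2 : (C D * X : F[X]).natDegree ≤ 1 := (natDegree_C_mul_X D hD).le
      have h3 : P.natDegree * (C D * X : F[X]).natDegree ≤ P.natDegree * 1 :=
        Nat.mul_le_mul_left _ h2
      omega
    rw [dn_mk, tau_mk_lt hf' _ hP, tau_mk_lt hf _ h1, comp_C_mul_X_coeff, hd, mul_comm]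

theorem split_dn (hf : f.Monic) (hf' : f'.Monic) (hD : D ≠ 0) (h : f' = f.scaleRoots D) (g : ℕ)
    (c : AdjoinRoot f') : Split hf g (dn D h c) ↔ Split hf' g c := by
  constructor
  · rintro ⟨W, hW, hW2⟩
    refine ⟨W.map (dnE hD h).symm.toLinearEquiv.toLinearMap, ?_, ?_⟩
    · rw [← hW]
      exact LinearEquiv.finrank_map_eq (dnE hD h).symm.toLinearEquiv W
    · rintro _ ⟨x, hx, rfl⟩ _ ⟨y, hy, rfl⟩
      have h1 := hW2 x hx y hy
      have h2 := tau_dn hf hf' hD h (c * dn D⁻¹ (tw_inv hD h) x * dn D⁻¹ (tw_inv hD h) y)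
      rw [map_mul (dn D h), map_mul (dn D h), dn_dn' hD h, dn_dn' hD h, h1] at h2
      exact (mul_eq_zero.1 h2.symm).resolve_left (pow_ne_zero _ hD)
  · rintro ⟨W, hW, hW2⟩
    refine ⟨W.map (dnE hD h).toLinearEquiv.toLinearMap, ?_, ?_⟩
    · rw [← hW]
      exact LinearEquiv.finrank_map_eq (dnE hD h).toLinearEquiv W
    · rintro _ ⟨x, hx, rfl⟩ _ ⟨y, hy, rfl⟩
      have h1 := hW2 x hx y hy
      have h2 := tau_dn hf hf' hD h (c * x * y)
      rw [map_mul (dn D h), map_mul (dn D h), h1, mul_zero] at h2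
      exact h2

private theorem unitAt_dn_of (L : Loc F) (hD : D ∈ L.O) (h : f' = f.scaleRoots D)
    (c : AdjoinRoot f') (hc : UnitAt L c) : UnitAt L (dn D h c) := by
  have key : ∀ e : AdjoinRoot f', IntE L e → IntE L (dn D h e) := by
    rintro _ ⟨P, hP, rfl⟩
    refine ⟨P.comp (C D * X), fun i => ?_, dn_mk h P⟩
    rw [comp_C_mul_X_coeff]
    exact mul_mem (hP i) (pow_mem hD i)
  obtain ⟨e, e', y, he, he', h1, hy, rfl⟩ := hc
  refine ⟨dn D h e, dn D h e', dn D h y, key e he, key e' he', ?_, hy.map _, ?_⟩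
  · rw [← map_mul, h1, map_one]
  · rw [map_mul, map_pow]

theorem unitAt_dn (L : Loc F) (hD : L.O.valuation D = 1) (h : f' = f.scaleRoots D)
    (c : AdjoinRoot f') : UnitAt L (dn D h c) ↔ UnitAt L c := by
  have hD0 : D ≠ 0 := by
    rintro rfl
    rw [map_zero] at hD
    exact zero_ne_one hD
  have hD1 : D ∈ L.O := (ValuationSubring.valuation_le_one_iff L.O D).1 hD.le
  have hD2 : D⁻¹ ∈ L.O := by
    refine (ValuationSubring.valuation_le_one_iff L.O D⁻¹).1 ?_
    rw [map_inv₀, hD, inv_one]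
  constructor
  · intro hu
    have h1 := unitAt_dn_of L hD2 (tw_inv hD0 h) _ hu
    rwa [dn_dn hD0 h] at h1
  · exact unitAt_dn_of L hD1 h c

theorem map_scale (hf : f.Monic) {F' : Type} [Field F'] (φ : F →+* F') (h : f' = f.scaleRoots D) :
    f'.map φ = (f.map φ).scaleRoots (φ D) := by
  rw [h, map_scaleRoots]
  rw [hf.leadingCoeff, map_one]
  exact one_ne_zero

theorem dn_bc (hf : f.Monic) {F' : Type} [Field F'] (φ : F →+* F') (h : f' = f.scaleRoots D)
    (c : AdjoinRoot f') :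
    bc φ f (dn D h c) = dn (φ D) (map_scale hf φ h) (bc φ f' c) := by
  obtain ⟨P, rfl⟩ := AdjoinRoot.mk_surjective c
  rw [dn_mk, bc_mk, bc_mk, dn_mk, Polynomial.map_comp, Polynomial.map_mul, map_C, map_X]

theorem coef_scale (L : Loc F) (hD : D ∈ L.O) (h : f' = f.scaleRoots D) (hc : Coef L f) :
    Coef L f' := by
  intro i
  rw [h, coeff_scaleRoots]
  exact mul_mem (hc i) (pow_mem hD _)

theorem reg_scale (L : Loc F) (hf : f.Monic) (hD : L.O.valuation D = 1) (h : f' = f.scaleRoots D)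
    (hr : Reg L f) : Reg L f' := by
  have hD0 : D ≠ 0 := by
    rintro rfl
    rw [map_zero] at hD
    exact zero_ne_one hD
  have hD1 : D ∈ L.O := (ValuationSubring.valuation_le_one_iff L.O D).1 hD.le
  have hD2 : D⁻¹ ∈ L.O := by
    refine (ValuationSubring.valuation_le_one_iff L.O D⁻¹).1 ?_
    rw [map_inv₀, hD, inv_one]
  have hcomp : ∀ P : F[X], Coef L P → Coef L (P.comp (C D * X)) := by
    intro P hP i
    rw [comp_C_mul_X_coeff]
    exact mul_mem (hP i) (pow_mem hD1 i)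
  have hmul : ∀ (u : F) (P : F[X]), u ∈ L.O → Coef L P → Coef L (C u * P) := by
    intro u P hu hP i
    rw [coeff_C_mul]
    exact mul_mem hu (hP i)
  intro p a b c hp hp1 hcp ha hb hc heq
  have hff : f = C (D⁻¹ ^ f.natDegree) * f'.comp (C D * X) := by
    ext i
    rw [coeff_C_mul, comp_C_mul_X_coeff, h, coeff_scaleRoots]
    rcases le_or_gt i f.natDegree with hi | hi
    · have h1 : D ^ (f.natDegree - i) * D ^ i = D ^ f.natDegree := by
        rw [← pow_add, Nat.sub_add_cancel hi]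
      have h2 : D⁻¹ ^ f.natDegree * D ^ f.natDegree = 1 := by
        rw [← mul_pow, inv_mul_cancel₀ hD0, one_pow]
      calc f.coeff i = f.coeff i * (D⁻¹ ^ f.natDegree * D ^ f.natDegree) := by rw [h2, mul_one]
        _ = D⁻¹ ^ f.natDegree * (f.coeff i * D ^ (f.natDegree - i) * D ^ i) := by
          rw [← h1]; ring
    · rw [coeff_eq_zero_of_natDegree_lt hi]
      ring
  have hpc : p.comp (C D * X) = C (D ^ p.natDegree) * (C (D⁻¹ ^ p.natDegree) * p.comp (C D * X)) := by
    rw [← mul_assoc, ← C_mul, ← mul_pow, mul_inv_cancel₀ hD0, one_pow, C_1, one_mul]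
  have hdeg : (C D * X : F[X]).natDegree = 1 := natDegree_C_mul_X D hD0
  have hnd : (p.comp (C D * X)).natDegree = p.natDegree := by
    rw [natDegree_comp, hdeg, mul_one]
  have hu0 : D⁻¹ ^ p.natDegree ≠ 0 := pow_ne_zero _ (inv_ne_zero hD0)
  have hnd2 : (C (D⁻¹ ^ p.natDegree) * p.comp (C D * X)).natDegree = p.natDegree := by
    rw [natDegree_C_mul hu0, hnd]
  refine hr (C (D⁻¹ ^ p.natDegree) * p.comp (C D * X)) (C (D⁻¹ ^ f.natDegree) * a.comp (C D * X))
    (C (D⁻¹ ^ f.natDegree * D ^ p.natDegree) * b.comp (C D * X))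
    (C (D⁻¹ ^ f.natDegree * (D ^ p.natDegree * D ^ p.natDegree)) * c.comp (C D * X)) ?_ ?_ ?_ ?_ ?_ ?_ ?_
  · unfold Monic leadingCoeff
    rw [hnd2, coeff_C_mul, comp_C_mul_X_coeff, hp.coeff_natDegree, one_mul, ← mul_pow,
      inv_mul_cancel₀ hD0, one_pow]
  · rw [hnd2]; exact hp1
  · exact hmul _ _ (pow_mem hD2 _) (hcomp _ hcp)
  · exact hmul _ _ (pow_mem hD2 _) (hcomp _ ha)
  · exact hmul _ _ (mul_mem (pow_mem hD2 _) (pow_mem hD1 _)) (hcomp _ hb)
  · exact hmul _ _ (mul_mem (pow_mem hD2 _) (mul_mem (pow_mem hD1 _) (pow_mem hD1 _))) (hcomp _ hc)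
  · generalize hq : C (D⁻¹ ^ p.natDegree) * p.comp (C D * X) = q at hpc
    refine hff.trans ?_
    rw [heq]
    simp only [add_comp, mul_comp, C_comp, pow_comp]
    rw [hpc]
    simp only [C_mul]
    ring

end Pool.Agent.HYP
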