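import Pool.Agent.Lib.HYP.G.Tw
import Pool.Agent.Lib.HYP.F.Nine
import Pool.Agent.Lib.HYP.F.RegT
import Pool.Agent.Lib.HYP.F.Img
import Pool.Agent.Lib.HYP.F.Spl

/-!
Module G.LocA of MP_950c68_ag (genus g). Units at the finite places: classes with a good basis, and local
images of the twist at the places which do not divide `D`.

PROOF. `fK_scale`: `Polynomial.map_scaleRoots` (leading coefficient `1`). `w = placeOf π hπ`,
`φ_w = w.toCompletion`, `f_w = (fK f).map φ_w`, monic of degree `2 g + 1`.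
`unitAt_of_inU`: take `b, G1, G2` with `Good hm c b G1 G2`; `b_w i = bc φ_w (fK f) (b i)` is `GoodR` over
`L.O` for `bc c`: `gram1_bc`, `gram2_bc`, `Good.g1`: the entries are images of polynomials, in `L.O`
(`loc_mem`); the determinant is the image of `det G1`, a unit of `k[X]` with inverse `u`
(`RingHom.map_det`, `Matrix.map_map`). Then `unitAt_of_good` with `coef_loc`, `reg_loc`.
`unitAt_twist`: `f' = fK (f.scaleRoots D)`, `f'_w = f_w.scaleRoots (φ_w (cc D))` (`map_scale hm φ_w h`),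
`V (φ_w (cc D)) = 1` (`loc_one`). `Coef`, `Reg` for `f'_w` by `coef_scale`, `reg_scale` (or directly
`reg_loc`, `coef_loc` for `f.scaleRoots D`); the degree is odd. `unitAt_of_image` gives
`UnitAt (bc φ_w f' c')`; by `unitAt_dn` `UnitAt (dn (φ_w (cc D)) _ (bc φ_w f' c'))`, which is
`bc φ_w (fK f) (dn (cc D) h c')` by `dn_bc`.
-/

set_option autoImplicit false

open Polynomial

namespace Pool.Agent.HYP

open Pool.Agent.BSDP

variable {k : Type} [Field k]

theorem fK_scale {f : k[X][X]} (hf : f.Monic) (D : k[X]) :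
    fK (f.scaleRoots D) = (fK f).scaleRoots (cc D) :=
  map_scaleRoots f D (algebraMap k[X] (RatFunc k)) (by rw [hf.leadingCoeff, map_one]; exact one_ne_zero)

theorem goodR_of_good {g : ℕ} {π : k[X]} (hπ : Irreducible π) (L : LocAt (BSDFF.placeOf π hπ))
    {f : k[X][X]} (hm : (fK f).Monic) (c : AdjoinRoot (fK f))
    (b : Fin (2 * g + 1) → AdjoinRoot (fK f))
    (G1 G2 : Matrix (Fin (2 * g + 1)) (Fin (2 * g + 1)) k[X]) (h : Good hm c b G1 G2) :
    GoodR L.O.toSubring (hm.map (BSDFF.placeOf π hπ).toCompletion)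
      (bc (BSDFF.placeOf π hπ).toCompletion (fK f) c)
      (fun i => bc (BSDFF.placeOf π hπ).toCompletion (fK f) (b i)) where
  g1 := fun i j => by
    rw [gram1_bc hm, h.g1]
    exact loc_mem hπ L (G1 i j)
  g2 := fun i j => by
    rw [gram2_bc hm, h.g2]
    exact loc_mem hπ L (G2 i j)
  unit := by
    obtain ⟨u, hu⟩ := h.unit.exists_left_inv
    refine ⟨(BSDFF.placeOf π hπ).toCompletion (cc u), loc_mem hπ L u, ?_⟩
    have h1 : (gram1 (hm.map (BSDFF.placeOf π hπ).toCompletion)
        (bc (BSDFF.placeOf π hπ).toCompletion (fK f) c)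
        (fun i => bc (BSDFF.placeOf π hπ).toCompletion (fK f) (b i))).det =
        (BSDFF.placeOf π hπ).toCompletion (cc G1.det) := by
      rw [gram1_bc hm, h.g1, cc, RingHom.map_det, RingHom.map_det]
      rfl
    rw [h1, ← map_mul, cc, cc, ← map_mul, hu, map_one, map_one]

theorem unitAt_of_inU {g : ℕ} {π : k[X]} (hπ : Irreducible π) (L : LocAt (BSDFF.placeOf π hπ))
    {f : k[X][X]} (hf : f.Monic) (hn : f.natDegree = 2 * g + 1) (hr : RegP π f)
    (hm : (fK f).Monic) (c : AdjoinRoot (fK f)) (hc : InU g hm c) :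
    UnitAt L.toLoc (bc (BSDFF.placeOf π hπ).toCompletion (fK f) c) := by
  obtain ⟨-, b, G1, G2, hG⟩ := hc
  refine unitAt_of_good L.toLoc (hm.map (BSDFF.placeOf π hπ).toCompletion) (g := g) ?_
    (coef_loc hπ L f) (reg_loc hπ L hr) _ _ (goodR_of_good hπ L hm c b G1 G2 hG)
  rw [hm.natDegree_map, hf.natDegree_map, hn]

theorem unitAt_twist {g : ℕ} {π : k[X]} (hπ : Irreducible π) (L : LocAt (BSDFF.placeOf π hπ))
    {f : k[X][X]} (hf : f.Monic) (hn : f.natDegree = 2 * g + 1) (hr : RegP π f)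
    {D : k[X]} (hD : ¬ π ∣ D) (h : fK (f.scaleRoots D) = (fK f).scaleRoots (cc D))
    (c' : AdjoinRoot (fK (f.scaleRoots D))) (hi : LocIm g c' (BSDFF.placeOf π hπ)) :
    UnitAt L.toLoc (bc (BSDFF.placeOf π hπ).toCompletion (fK f) (dn (cc D) h c')) := by
  have hm : (fK f).Monic := hf.map _
  have hm' : (fK (f.scaleRoots D)).Monic := ((monic_scaleRoots_iff D).2 hf).map _
  have h1 : L.toLoc.O.valuation ((BSDFF.placeOf π hπ).toCompletion (cc D)) = 1 :=
    (loc_one hπ L D).2 hD
  rw [dn_bc hm (BSDFF.placeOf π hπ).toCompletion h c',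
    unitAt_dn L.toLoc h1 (map_scale hm (BSDFF.placeOf π hπ).toCompletion h)]
  refine unitAt_of_image L.toLoc (hm'.map (BSDFF.placeOf π hπ).toCompletion)
    (coef_loc hπ L (f.scaleRoots D)) ?_ ?_ hi
  · rw [hm'.natDegree_map, ((monic_scaleRoots_iff D).2 hf).natDegree_map, natDegree_scaleRoots, hn]
    exact ⟨g, rfl⟩
  · exact reg_scale L.toLoc (hm.map (BSDFF.placeOf π hπ).toCompletion) h1
      (map_scale hm (BSDFF.placeOf π hπ).toCompletion h) (reg_loc hπ L hr)

end Pool.Agent.HYP
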