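import Pool.Agent.Lib.HYP.G.Tw
import Pool.Agent.Lib.HYP.L.Split12

/-!
Module G.LocB of MP_950c68_ag (genus g). Local images of the twist are split in the algebra of `f`; the
form `Q_1` is split.

PROOF. `image_one`: `U = 1`, `V = 0`, `y = 1` (`Mumford`: `monic_one`, `isCoprime_one_left`, `one_dvd`).
`split_one`: `split_of_image`. `split_twist`: `f'_w = f_w.scaleRoots (φ_w (cc D))` (`map_scale hm`),
`split_of_image` for `bc φ_w f' c'` (`natDegree_scaleRoots`, monic `natDegree_map`), `split_dn`, `dn_bc`.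
-/

set_option autoImplicit false

open Polynomial

namespace Pool.Agent.HYP

open Pool.Agent.BSDP

theorem image_one {F : Type} [Field F] (f : F[X]) (g : ℕ) : Image f g (1 : AdjoinRoot f) := by
  refine ⟨1, 0, ⟨monic_one, ?_, isCoprime_one_left, one_dvd _⟩, 1, isUnit_one, ?_⟩
  · rw [natDegree_one]
    exact Nat.zero_le g
  · rw [natDegree_one, pow_zero, map_one, one_pow, mul_one, mul_one]

theorem split_of_isSquare {F : Type} [Field F] (h2 : (2 : F) ≠ 0) {f : F[X]} (hf : f.Monic) {g : ℕ}
    (hn : f.natDegree = 2 * g + 1) (c : AdjoinRoot f) (hc : IsUnit c) (hs : IsSquare c) :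
    Split hf g c := by
  obtain ⟨r, rfl⟩ := hs
  have hr : IsUnit r := isUnit_of_mul_isUnit_left hc
  have h1 : Split hf g (1 : AdjoinRoot f) := split_of_image h2 hf hn (image_one f g)
  have h3 := (split_mul_sq hf g 1 r hr).2 h1
  rw [one_mul, pow_two] at h3
  exact h3

theorem split_twist {k : Type} [Field k] (h2 : (2 : k) ≠ 0) {g : ℕ} {f : k[X][X]} (hf : f.Monic)
    (hn : f.natDegree = 2 * g + 1) (hm : (fK f).Monic) {D : k[X]} (hD : D ≠ 0)
    (h : fK (f.scaleRoots D) = (fK f).scaleRoots (cc D)) (c' : AdjoinRoot (fK (f.scaleRoots D)))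
    (w : BSDFF.Place k (RatFunc k)) (hi : LocIm g c' w) :
    Split (hm.map w.toCompletion) g (bc w.toCompletion (fK f) (dn (cc D) h c')) := by
  have hD' : (cc D : RatFunc k) ≠ 0 := by
    intro h0
    exact hD ((map_eq_zero_iff _ (RatFunc.algebraMap_injective k)).1 h0)
  have hD2 : w.toCompletion (cc D) ≠ 0 := by
    intro h0
    exact hD' ((map_eq_zero _).1 h0)
  have h2' : (2 : w.ring.valuation.Completion) ≠ 0 := by
    intro h0
    apply h2
    have h3 : w.toCompletion (algebraMap k[X] (RatFunc k) (C (2 : k))) = 0 := by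
      rw [map_ofNat, map_ofNat, map_ofNat]
      exact h0
    have h4 := (map_eq_zero _).1 h3
    have h5 := (map_eq_zero_iff _ (RatFunc.algebraMap_injective k)).1 h4
    exact C_eq_zero.1 h5
  have hm' : (fK (f.scaleRoots D)).Monic := by
    have h3 : (f.scaleRoots D).Monic := (monic_scaleRoots_iff D).2 hf
    exact h3.map _
  have hn' : ((fK (f.scaleRoots D)).map w.toCompletion).natDegree = 2 * g + 1 := by
    rw [hm'.natDegree_map, ((monic_scaleRoots_iff D).2 hf).natDegree_map, natDegree_scaleRoots, hn]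
  rw [dn_bc hm w.toCompletion h c',
    split_dn (hm.map w.toCompletion) (hm'.map w.toCompletion) hD2 (map_scale hm w.toCompletion h)]
  exact split_of_image h2' (hm'.map w.toCompletion) hn' hi

end Pool.Agent.HYP
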