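import Pool.Agent.Lib.HYP.G.LocA
import Pool.Agent.Lib.HYP.G.LocB
import Pool.Agent.Lib.HYP.F.Inf
import Pool.Agent.Lib.HYP.F.Comp
import Pool.Agent.Lib.HYP.F.DetB
import Pool.Agent.Lib.HYP.N.Main
import Pool.Agent.Lib.HYP.R.Recip
import Pool.Agent.Lib.HYP.L.Pair
import Pool.Agent.Lib.HYP.H.Height

/-!
Module G.Step of MP_950c68_ag (genus g), section 13: one step of the reciprocity argument.
-/

set_option autoImplicit false

open Polynomial

namespace Pool.Agent.HYP

open Pool.Agent.BSDP Pool.Agent.BSDP.R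

variable {k : Type} [Field k]

theorem exists_std_basis {F : Type} [Field F] {f : F[X]} (hf : f.Monic) {g : ℕ}
    (hn : f.natDegree = 2 * g + 1) :
    ∃ B : Module.Basis (Fin (2 * g + 1)) F (AdjoinRoot f), ∀ i, B i = std f (2 * g + 1) i := by
  have hd : (gram1 hf 1 (std f (2 * g + 1))).det ≠ 0 := by
    rw [gram1_det hf hn, coord_std hf hn, Matrix.det_one, map_one]
    simp
  exact (basis_of_gram hf hn 1 (std f (2 * g + 1)) hd).2.2

theorem splitM_iff {F F' : Type} [Field F] [Field F'] {f : F[X]} (hf : f.Monic) {g : ℕ}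
    (hn : f.natDegree = 2 * g + 1) (φ : F →+* F') (c : AdjoinRoot f) :
    SplitM g ((gram1 hf c (std f (2 * g + 1))).map φ) ↔ Split (hf.map φ) g (bc φ f c) := by
  have hn' : (f.map φ).natDegree = 2 * g + 1 := by rw [hf.natDegree_map, hn]
  obtain ⟨B, hB⟩ := exists_std_basis (hf.map φ) hn'
  rw [split_iff_splitM (hf.map φ) g (bc φ f c) B, ← gram1_bc hf φ c]
  have : (fun i => B i) = fun i => bc φ f (std f (2 * g + 1) i) := by
    funext i
    rw [hB i]
    simp only [std, map_pow, bc_root]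
  rw [this]

theorem sqNorm_bc {F F' : Type} [Field F] [Field F'] {f : F[X]} (hf : f.Monic) (φ : F →+* F')
    {c : AdjoinRoot f} (hc : SqNorm c) : SqNorm (bc φ f c) := by
  obtain ⟨a, ha, h⟩ := hc
  refine ⟨φ a, (_root_.map_ne_zero φ).2 ha, ?_⟩
  rw [norm_bc hf, h, map_pow]

theorem isUnit_of_sqNorm {F : Type} [Field F] {f : F[X]} (hf : f.Monic) {c : AdjoinRoot f}
    (hc : SqNorm c) : IsUnit c := by
  obtain ⟨a, ha, h⟩ := hc
  rw [isUnit_iff_norm hf, h]
  exact (isUnit_iff_ne_zero.2 ha).pow 2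

theorem not_dvd_prod {W : Finset k[X]} (hW : ∀ π ∈ W, π.Monic ∧ Irreducible π) {π : k[X]}
    (hπ : Irreducible π) (hm : π.Monic) (h : π ∉ W) : ¬ π ∣ ∏ σ ∈ W, σ := by
  intro hd
  obtain ⟨σ, hσ, hdσ⟩ := (hπ.prime.dvd_finsetProd_iff _).1 hd
  obtain ⟨h1, h2⟩ := hW σ hσ
  have h3 : Associated π σ := hπ.associated_of_dvd h2 hdσ
  exact h (eq_of_monic_of_associated hm h1 h3 ▸ hσ)

theorem step [Finite k] {g : ℕ} (hg : 1 ≤ g) (h2 : (2 : k) ≠ 0) {φ : k[X]}
    (hφ : LeadForm g φ) {m : ℕ} {f : k[X][X]} (hf : Fam g m φ f) (hm : (fK f).Monic)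
    {W : Finset k[X]} (hW : ∀ π ∈ W, π.Monic ∧ Irreducible π)
    (h : fK (f.scaleRoots (∏ σ ∈ W, σ)) = (fK f).scaleRoots (cc (∏ σ ∈ W, σ)))
    (c' : AdjoinRoot (fK (f.scaleRoots (∏ σ ∈ W, σ)))) (hn : SqNorm c')
    (hl : ∀ w : BSDFF.Place k (RatFunc k), LocIm g c' w) {π : k[X]} (hπW : π ∈ W)
    (hπ : Irreducible π) (e : AdjoinRoot (fK f)) (he : InU g hm e)
    (hd : haveI : Fact (Irreducible π) := ⟨hπ⟩; DetG g hm π e)
    (ho : ∀ π' ∈ W, π' ≠ π → ∀ hπ' : Irreducible π',
      IsSquare (bc (BSDFF.placeOf π' hπ').toCompletion (fK f) (dn _ h c')) ∨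
      IsSquare (bc (BSDFF.placeOf π' hπ').toCompletion (fK f) e)) :
    IsSquare (bc (BSDFF.placeOf π hπ).toCompletion (fK f) (dn _ h c')) := by
  classical
  have hKn : (fK f).natDegree = 2 * g + 1 := by rw [hf.monic.natDegree_map, hf.deg]
  have hD0 : (∏ σ ∈ W, σ) ≠ 0 := Finset.prod_ne_zero_iff.2 fun σ hσ => (hW σ hσ).2.ne_zero
  have hccD0 : cc (∏ σ ∈ W, σ) ≠ 0 := by
    rw [cc, map_ne_zero_iff _ (RatFunc.algebraMap_injective k)]
    exact hD0
  have hm' : (fK (f.scaleRoots (∏ σ ∈ W, σ))).Monic := by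
    rw [h]
    exact (monic_scaleRoots_iff _).2 hm
  have hcn : SqNorm (dn _ h c') := (sqNorm_dn hm hccD0 h c').2 hn
  have hcu : IsUnit (dn _ h c') := isUnit_of_sqNorm hm hcn
  have heu : IsUnit e := isUnit_of_sqNorm hm he.1
  by_contra hns
  obtain ⟨L, hC⟩ := exists_locAt_complete h2 (BSDFF.placeOf π hπ)
  obtain ⟨ξ, hh, H, hE⟩ := eta_of_det hπ L hg hf.monic hf.deg (hf.reg π hπ) hm e he.1 hd
  have hval : L.O.valuation ((BSDFF.placeOf π hπ).toCompletion (cc (∏ σ ∈ W, σ))) =
      L.O.valuation L.pi := by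
    refine loc_unif hπ L (Finset.dvd_prod_of_mem _ hπW) ?_
    intro hdv
    have hsq : Squarefree (∏ σ ∈ W, σ) := squarefree_prod hW (Finset.Subset.refl W)
    exact hπ.not_isUnit (hsq π (by rw [← pow_two]; exact hdv))
  have key := not_split_at L.toLoc hC hg (hm.map (BSDFF.placeOf π hπ).toCompletion) H hval
    (map_scale hm (BSDFF.placeOf π hπ).toCompletion h)
    (bc (BSDFF.placeOf π hπ).toCompletion _ c') (hl _) (sqNorm_bc hm' _ hn) ?_ _ hE
  · apply key
    rw [← dn_bc hm, ← map_mul, ← splitM_iff hm hKn]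
    refine recip h2 hg _ (gram1_symm hm _ _) ?_ (BSDFF.placeOf π hπ) ?_
    · rw [gram1_det hm hKn, coord_std hm hKn, Matrix.det_one, one_pow, mul_one]
      refine mul_ne_zero (pow_ne_zero _ (neg_ne_zero.2 one_ne_zero)) ?_
      exact ((isUnit_iff_norm hm _).1 (hcu.mul heu)).ne_zero
    · intro v hv
      rw [splitM_iff hm hKn, map_mul]
      have hvn : ((fK f).map v.toCompletion).natDegree = 2 * g + 1 := by
        rw [hm.natDegree_map, hKn]
      have h2v : (2 : v.ring.valuation.Completion) ≠ 0 := by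
        have : (2 : v.ring.valuation.Completion) = v.toCompletion (algebraMap k (RatFunc k) 2) := by
          rw [map_ofNat, map_ofNat]
        rw [this]
        exact (_root_.map_ne_zero _).2 ((_root_.map_ne_zero _).2 h2)
      rcases place_cases v with rfl | ⟨π', hπ', hπm', rfl⟩
      · -- infinity
        obtain ⟨Li, hCi⟩ := exists_locAt_complete h2 (BSDFF.placeInfty k)
        have h3 : SqNorm (bc (BSDFF.placeInfty k).toCompletion (fK f) (dn _ h c' * e)) := by
          refine sqNorm_bc hm _ ?_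
          obtain ⟨a, ha, ha'⟩ := hcn
          obtain ⟨b, hb, hb'⟩ := he.1
          exact ⟨a * b, mul_ne_zero ha hb, by rw [map_mul, ha', hb', mul_pow]⟩
        rw [← map_mul]
        exact split_of_isSquare h2v (hm.map _) hvn _ (isUnit_of_sqNorm (hm.map _) h3)
          (isSquare_infty hφ hf Li hCi _ h3)
      · obtain ⟨L', hC'⟩ := exists_locAt_complete h2 (BSDFF.placeOf π' hπ')
        have heU := unitAt_of_inU hπ' L' hf.monic hf.deg (hf.reg π' hπ') hm e he
        by_cases hW' : π' ∈ W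
        · have hne : π' ≠ π := by
            rintro rfl
            exact hv rfl
          rcases ho π' hW' hne hπ' with h4 | h4
          · -- the twist class is a square
            obtain ⟨y, hy⟩ := h4
            have hyu : IsUnit y := by
              have h5 := hcu.map (bc (BSDFF.placeOf π' hπ').toCompletion (fK f))
              rw [hy] at h5
              exact isUnit_of_mul_isUnit_left h5
            rw [hy, mul_comm, ← pow_two, split_mul_sq _ _ _ _ hyu]
            exact split_of_unitAt L'.toLoc (hm.map _) hvn (coef_loc hπ' L' f) _ heU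
          · obtain ⟨y, hy⟩ := h4
            have hyu : IsUnit y := by
              have h5 := heu.map (bc (BSDFF.placeOf π' hπ').toCompletion (fK f))
              rw [hy] at h5
              exact isUnit_of_mul_isUnit_left h5
            rw [hy, ← pow_two, split_mul_sq _ _ _ _ hyu]
            exact split_twist h2 hf.monic hf.deg hm hD0 h c' _ (hl _)
        · have hcU := unitAt_twist hπ' L' hf.monic hf.deg (hf.reg π' hπ')
            (not_dvd_prod hW hπ' hπm' hW') h c' (hl _)
          exact split_of_unitAt L'.toLoc (hm.map _) hvn (coef_loc hπ' L' f) _ (hcU.mul heU)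
  · intro h3
    apply hns
    rw [dn_bc hm]
    exact (isSquare_dn ((_root_.map_ne_zero _).2 hccD0) _ _).2 h3

end Pool.Agent.HYP
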