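import Pool.Agent.Lib.HYP.Def2
import Pool.Agent.Lib.MP_48b749_nt.Odd.LocComp

/-!
Module G.GL of MP_950c68_ag (genus g). `GL_n (k(t)) = GL_n (O_π) GL_n (k[t][1/π])` (row reduction
over a valuation ring; the proof is that of the module F.GL of the genus 1 case for arbitrary `n`).
-/

set_option autoImplicit false

open Polynomial

namespace Pool.Agent.HYP

open Pool.Agent.BSDP

section abstract

variable {K : Type} [Field K]

/-- the block matrix -/
private def gblk {n : ℕ} (a : K) (r c : Fin n → K) (B : Matrix (Fin n) (Fin n) K) :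
    Matrix (Fin (n + 1)) (Fin (n + 1)) K :=
  fun i j => Fin.cases (Fin.cases a r j) (fun i' => Fin.cases (c i') (B i') j) i

private theorem gblk_mul {n : ℕ} (a a' : K) (r c r' c' : Fin n → K)
    (B B' : Matrix (Fin n) (Fin n) K) :
    gblk a r c B * gblk a' r' c' B' =
      gblk (a * a' + ∑ i, r i * c' i) (fun j => a * r' j + ∑ i, r i * B' i j)
        (fun i => c i * a' + ∑ j, B i j * c' j) (fun i j => c i * r' j + (B * B') i j) := by
  ext i j
  rw [Matrix.mul_apply, Fin.sum_univ_succ]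
  refine Fin.cases ?_ (fun i => ?_) i <;> refine Fin.cases ?_ (fun j => ?_) j <;>
    simp [gblk, Matrix.mul_apply]

private theorem gblk_one {n : ℕ} : gblk (1 : K) 0 0 (1 : Matrix (Fin n) (Fin n) K) = 1 := by
  ext i j
  refine Fin.cases ?_ (fun i => ?_) i <;> refine Fin.cases ?_ (fun j => ?_) j <;>
    simp [gblk, Matrix.one_apply, Fin.succ_ne_zero, (Fin.succ_ne_zero _).symm]

private theorem gblk_eta {n : ℕ} (M : Matrix (Fin (n + 1)) (Fin (n + 1)) K) :
    M = gblk (M 0 0) (fun j => M 0 j.succ) (fun i => M i.succ 0)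
      (fun i j => M i.succ j.succ) := by
  ext i j
  refine Fin.cases ?_ (fun i => ?_) i <;> refine Fin.cases ?_ (fun j => ?_) j <;> rfl

private theorem gblk_congr {n : ℕ} {a a' : K} {r c r' c' : Fin n → K}
    {B B' : Matrix (Fin n) (Fin n) K} (h1 : a = a') (h2 : ∀ j, r j = r' j) (h3 : ∀ j, c j = c' j)
    (h4 : ∀ i j, B i j = B' i j) : gblk a r c B = gblk a' r' c' B' := by
  rw [h1, funext h2, funext h3, (Matrix.ext h4 : B = B')]

private theorem gblk_mem {n : ℕ} {R : Subring K} {a : K} {r c : Fin n → K}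
    {B : Matrix (Fin n) (Fin n) K} (ha : a ∈ R) (hr : ∀ i, r i ∈ R) (hc : ∀ i, c i ∈ R)
    (hB : ∀ i j, B i j ∈ R) (i j) : gblk a r c B i j ∈ R := by
  refine Fin.cases ?_ (fun i => ?_) i <;> refine Fin.cases ?_ (fun j => ?_) j
  · exact ha
  · exact hr j
  · exact hc i
  · exact hB i j

/-- invertible over `R` -/
private def GIn {n : ℕ} (R : Subring K) (U : Matrix (Fin n) (Fin n) K) : Prop :=
  ∃ U' : Matrix (Fin n) (Fin n) K, U * U' = 1 ∧ (∀ i j, U i j ∈ R) ∧ ∀ i j, U' i j ∈ R

private theorem mul_mem_R {n : ℕ} {R : Subring K} {U V : Matrix (Fin n) (Fin n) K}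
    (hU : ∀ i j, U i j ∈ R) (hV : ∀ i j, V i j ∈ R) (i j) : (U * V) i j ∈ R := by
  rw [Matrix.mul_apply]
  exact R.sum_mem fun s _ => R.mul_mem (hU i s) (hV s j)

private theorem GIn.mul {n : ℕ} {R : Subring K} {U V : Matrix (Fin n) (Fin n) K}
    (hU : GIn R U) (hV : GIn R V) : GIn R (U * V) := by
  obtain ⟨U', h1, h2, h3⟩ := hU
  obtain ⟨V', h4, h5, h6⟩ := hV
  refine ⟨V' * U', ?_, mul_mem_R h2 h5, mul_mem_R h6 h3⟩
  rw [Matrix.mul_assoc, ← Matrix.mul_assoc V, h4, Matrix.one_mul, h1]

private theorem sub_mul {n : ℕ} (A B : Matrix (Fin n) (Fin n) K) (σ : Equiv.Perm (Fin n))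
    (h : A * B = 1) : A.submatrix σ id * B.submatrix id σ = 1 := by
  have h1 : A.submatrix σ id * B.submatrix id σ = (A * B).submatrix σ σ := rfl
  rw [h1, h]
  exact Matrix.submatrix_one_equiv σ

private theorem gl_abs (O : ValuationSubring K) (S : Subring K) (π : K) (hπ0 : π ≠ 0)
    (hπ : π ∈ S) (hπ' : π⁻¹ ∈ S)
    (ha : ∀ x : K, x ≠ 0 → ∃ (n : ℤ) (u : K), O.valuation u = 1 ∧ x = π ^ n * u)
    (hb : ∀ x : K, ∃ s ∈ S, ∃ y ∈ O, x = s + y) (n : ℕ) :
    ∀ g : Matrix (Fin n) (Fin n) K, (∃ h, g * h = 1) →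
      ∃ U T : Matrix (Fin n) (Fin n) K, g = U * T ∧ GIn O.toSubring U ∧ GIn S T := by
  have hz : ∀ n : ℤ, π ^ n ∈ S := by
    intro n
    obtain ⟨m, rfl | rfl⟩ := n.eq_nat_or_neg
    · rw [zpow_natCast]
      exact S.pow_mem hπ m
    · rw [zpow_neg, zpow_natCast, ← inv_pow]
      exact S.pow_mem hπ' m
  induction n with
  | zero =>
    intro g _
    exact ⟨1, 1, Subsingleton.elim _ _, ⟨1, Subsingleton.elim _ _, fun i => i.elim0,
      fun i => i.elim0⟩, ⟨1, Subsingleton.elim _ _, fun i => i.elim0, fun i => i.elim0⟩⟩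
  | succ n ih =>
    -- first the case where the corner has maximal valuation
    have main : ∀ g : Matrix (Fin (n + 1)) (Fin (n + 1)) K, (∃ h, g * h = 1) → g 0 0 ≠ 0 →
        (∀ i, O.valuation (g i 0) ≤ O.valuation (g 0 0)) →
        ∃ U T : Matrix (Fin (n + 1)) (Fin (n + 1)) K, g = U * T ∧ GIn O.toSubring U ∧ GIn S T := by
      rintro g ⟨h, hgh⟩ h0 hmax
      obtain ⟨m, u, hu, hmu⟩ := ha _ h0
      have hu0 : u ≠ 0 := by
        rintro rfl
        rw [map_zero] at hu
        exact zero_ne_one hu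
      have huO : u ∈ O := (O.valuation_le_one_iff u).1 hu.le
      have huO' : u⁻¹ ∈ O := by
        rw [← O.valuation_le_one_iff, map_inv₀, hu, inv_one]
      let q : Fin n → K := fun i => g i.succ 0 / g 0 0
      have hq : ∀ i, q i ∈ O := by
        intro i
        rw [← O.valuation_le_one_iff, map_div₀]
        exact div_le_one_of_le₀ (hmax _) zero_le
      let r' : Fin n → K := fun j => u⁻¹ * g 0 j.succ
      let B' : Matrix (Fin n) (Fin n) K := fun i j => g i.succ j.succ - q i * g 0 j.succ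
      have e1 : g = gblk u 0 (fun i => q i * u) 1 * gblk (π ^ m) r' 0 B' := by
        conv_lhs => rw [gblk_eta g]
        rw [gblk_mul]
        refine gblk_congr ?_ (fun j => ?_) (fun i => ?_) fun i j => ?_
        · rw [hmu]; simp [mul_comm]
        · simp [r', mul_inv_cancel_left₀ hu0]
        · have : q i * u * π ^ m = q i * g 0 0 := by rw [hmu]; ring
          simp only [Pi.zero_apply, mul_zero, Finset.sum_const_zero, add_zero]
          rw [this, div_mul_cancel₀ _ h0]
        · simp only [Matrix.one_mul, r', B']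
          have : q i * u * (u⁻¹ * g 0 j.succ) = q i * g 0 j.succ * (u * u⁻¹) := by ring
          rw [this, mul_inv_cancel₀ hu0]
          ring
      have hB : ∃ W, B' * W = 1 := by
        have h1 : gblk (π ^ m) r' 0 B' * (h * gblk u 0 (fun i => q i * u) 1) = 1 := by
          rw [← Matrix.mul_assoc, mul_eq_one_comm, ← Matrix.mul_assoc, ← e1]
          exact hgh
        rw [gblk_eta (h * gblk u 0 (fun i => q i * u) 1), gblk_mul, ← gblk_one] at h1
        refine ⟨fun i j => (h * gblk u 0 (fun i => q i * u) 1) i.succ j.succ, ?_⟩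
        ext i j
        have h2 := congrFun (congrFun h1 i.succ) j.succ
        simpa [gblk] using h2
      obtain ⟨U2, T2, hUT, ⟨U2', hU1, hU2, hU3⟩, ⟨T2', hT1, hT2, hT3⟩⟩ := ih B' hB
      choose s hs y hy hsy using fun j => hb (∑ i, r' i * T2' i j)
      have hr' : ∀ j, r' j = ∑ i, s i * T2 i j + ∑ i, y i * T2 i j := by
        intro j
        rw [← Finset.sum_add_distrib]
        have h1 : ∀ i, s i * T2 i j + y i * T2 i j = (∑ l, r' l * T2' l i) * T2 i j := by
          intro i
          rw [hsy i, add_mul]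
        simp only [h1, Finset.sum_mul]
        rw [Finset.sum_comm]
        have h2 : ∀ l, ∑ i, r' l * T2' l i * T2 i j = r' l * (T2' * T2) l j := by
          intro l
          rw [Matrix.mul_apply, Finset.mul_sum]
          exact Finset.sum_congr rfl fun i _ => mul_assoc _ _ _
        simp only [h2, mul_eq_one_comm.1 hT1]
        simp [Matrix.one_apply]
      have e2 : gblk (π ^ m) r' 0 B' = gblk 1 0 0 U2 * (gblk 1 y 0 1 *
          gblk (π ^ m) (fun j => ∑ i, s i * T2 i j) 0 T2) := by
        rw [gblk_mul, gblk_mul]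
        refine gblk_congr ?_ (fun j => ?_) (fun i => ?_) fun i j => ?_
        · simp
        · simp [hr' j]
        · simp
        · simp [hUT]
      refine ⟨gblk u 0 (fun i => q i * u) 1 * (gblk 1 0 0 U2 * gblk 1 y 0 1),
        gblk (π ^ m) (fun j => ∑ i, s i * T2 i j) 0 T2, ?_, ?_, ?_⟩
      · rw [Matrix.mul_assoc, Matrix.mul_assoc (gblk 1 0 0 U2), ← e2]
        exact e1
      · refine GIn.mul ?_ (GIn.mul ?_ ?_)
        · refine ⟨gblk u⁻¹ 0 (fun i => -q i) 1, ?_, gblk_mem huO (fun _ => O.toSubring.zero_mem)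
            (fun i => O.toSubring.mul_mem (hq i) huO) ?_, gblk_mem huO'
            (fun _ => O.toSubring.zero_mem) (fun i => O.toSubring.neg_mem (hq i)) ?_⟩
          · rw [gblk_mul, ← gblk_one]
            refine gblk_congr ?_ (fun j => ?_) (fun i => ?_) fun i j => ?_
            · simp [mul_inv_cancel₀ hu0]
            · simp
            · simp [Matrix.one_apply, mul_assoc, mul_inv_cancel₀ hu0]
            · simp
          all_goals
            intro i j
            rw [Matrix.one_apply]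
            split_ifs
            · exact O.toSubring.one_mem
            · exact O.toSubring.zero_mem
        · refine ⟨gblk 1 0 0 U2', ?_, gblk_mem O.toSubring.one_mem
            (fun _ => O.toSubring.zero_mem) (fun _ => O.toSubring.zero_mem) hU2,
            gblk_mem O.toSubring.one_mem (fun _ => O.toSubring.zero_mem)
            (fun _ => O.toSubring.zero_mem) hU3⟩
          rw [gblk_mul, ← gblk_one]
          refine gblk_congr ?_ (fun j => ?_) (fun i => ?_) fun i j => ?_
          · simp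
          · simp
          · simp
          · simp [hU1]
        · refine ⟨gblk 1 (-y) 0 1, ?_, gblk_mem O.toSubring.one_mem hy
            (fun _ => O.toSubring.zero_mem) ?_,
            gblk_mem O.toSubring.one_mem (fun i => O.toSubring.neg_mem (hy i))
            (fun _ => O.toSubring.zero_mem) ?_⟩
          · rw [gblk_mul, ← gblk_one]
            refine gblk_congr ?_ (fun j => ?_) (fun i => ?_) fun i j => ?_
            · simp
            · simp [Matrix.one_apply]
            · simp
            · simp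
          all_goals
            intro i j
            rw [Matrix.one_apply]
            split_ifs
            · exact O.toSubring.one_mem
            · exact O.toSubring.zero_mem
      · refine ⟨gblk (π ^ (-m)) (fun i => -(π ^ (-m) * s i)) 0 T2', ?_, gblk_mem (hz _)
          (fun j => S.sum_mem fun i _ => S.mul_mem (hs i) (hT2 i j)) (fun _ => S.zero_mem) hT2,
          gblk_mem (hz _) (fun i => S.neg_mem (S.mul_mem (hz _) (hs i))) (fun _ => S.zero_mem)
          hT3⟩
        have hp : π ^ m * π ^ (-m) = 1 := by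
          rw [← zpow_add₀ hπ0, add_neg_cancel, zpow_zero]
        rw [gblk_mul, ← gblk_one]
        refine gblk_congr ?_ (fun j => ?_) (fun i => ?_) fun i j => ?_
        · simp only [Pi.zero_apply, mul_zero, Finset.sum_const_zero, add_zero]
          exact hp
        · have h1 : ∑ i, (∑ l, s l * T2 l i) * T2' i j = s j := by
            simp only [Finset.sum_mul]
            rw [Finset.sum_comm]
            have h2 : ∀ l, ∑ i, s l * T2 l i * T2' i j = s l * (T2 * T2') l j := by
              intro l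
              rw [Matrix.mul_apply, Finset.mul_sum]
              exact Finset.sum_congr rfl fun i _ => mul_assoc _ _ _
            simp only [h2, hT1]
            simp [Matrix.one_apply]
          rw [h1]
          have h3 : π ^ m * -(π ^ (-m) * s j) = -(π ^ m * π ^ (-m)) * s j := by ring
          rw [h3, hp]
          simp
        · simp
        · simp [hT1]
    rintro g ⟨h, hgh⟩
    obtain ⟨i0, -, hi0⟩ := Finset.exists_max_image (Finset.univ : Finset (Fin (n + 1)))
      (fun i => O.valuation (g i 0)) ⟨0, Finset.mem_univ _⟩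
    have hne : g i0 0 ≠ 0 := by
      intro h0
      have h1 : ∀ i, g i 0 = 0 := by
        intro i
        have h2 := hi0 i (Finset.mem_univ _)
        simp only [h0, map_zero] at h2
        exact (O.valuation.zero_iff).1 (le_antisymm h2 zero_le)
      have h5 : h * g = 1 := mul_eq_one_comm.1 hgh
      have h2 := congrFun (congrFun h5 0) 0
      rw [Matrix.mul_apply] at h2
      simp [h1] at h2
    let σ := Equiv.swap 0 i0
    obtain ⟨U, T, hUT, ⟨U', h1, h2, h3⟩, hT⟩ := main (g.submatrix σ id)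
      ⟨h.submatrix id σ, sub_mul g h σ hgh⟩
      (by simpa [σ] using hne) (fun i => by simpa [σ] using hi0 (σ i) (Finset.mem_univ _))
    refine ⟨U.submatrix σ id, T, ?_, ⟨U'.submatrix id σ, ?_, fun i j => h2 _ _,
      fun i j => h3 _ _⟩, hT⟩
    · have h4 : g = (g.submatrix σ id).submatrix σ id := by
        ext i j
        simp [σ]
      rw [h4, hUT]
      ext i j
      simp [Matrix.mul_apply]
    · exact sub_mul U U' σ h1

end abstract

variable {k : Type} [Field k]

/-- `GL_n (k(t)) = GL_n (O_π) GL_n (k[t][1/π])` -/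
theorem gl_decomp {n : ℕ} (π : k[X]) (hπ : Irreducible π) (g : Matrix (Fin n) (Fin n) (RatFunc k))
    (hg : g.det ≠ 0) :
    ∃ U U' T T' : Matrix (Fin n) (Fin n) (RatFunc k), g = U * T ∧ U * U' = 1 ∧ T * T' = 1 ∧
      (∀ i j, U i j ∈ (BSDFF.placeOf π hπ).ring) ∧ (∀ i j, U' i j ∈ (BSDFF.placeOf π hπ).ring) ∧
      ∀ (ρ : k[X]) (hρ : Irreducible ρ), ¬ Associated ρ π →
        (∀ i j, T i j ∈ (BSDFF.placeOf ρ hρ).ring) ∧
        (∀ i j, T' i j ∈ (BSDFF.placeOf ρ hρ).ring) := by
  classical
  have hpi0 : cc π ≠ 0 := by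
    simpa [cc] using hπ.ne_zero
  -- polynomials
  have hpoly : ∀ (ρ : k[X]) (hρ : Irreducible ρ) (f : k[X]), cc f ∈ (BSDFF.placeOf ρ hρ).ring := by
    intro ρ hρ f
    rw [← ValuationSubring.valuation_le_one_iff]
    by_cases hf : ρ ∣ f
    · exact (BSDFF.Odd.valuation_lt_one hρ hf).le
    · exact (BSDFF.Odd.valuation_eq_one hρ hf).le
  have hfac : ∀ f : k[X], f ≠ 0 → ∃ (m : ℕ) (f' : k[X]), ¬ π ∣ f' ∧ f = π ^ m * f' := by
    intro f hf
    obtain ⟨c, hc, H⟩ := (FiniteMultiplicity.of_not_isUnit hπ.not_isUnit hf :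
      FiniteMultiplicity π f).exists_eq_pow_mul_and_not_dvd
    exact ⟨_, c, H, hc⟩
  let S : Subring (RatFunc k) :=
    { carrier := {x | ∀ (ρ : k[X]) (hρ : Irreducible ρ), ¬ Associated ρ π →
        x ∈ (BSDFF.placeOf ρ hρ).ring}
      mul_mem' := fun ha hb ρ hρ h => (BSDFF.placeOf ρ hρ).ring.mul_mem _ _ (ha ρ hρ h)
        (hb ρ hρ h)
      one_mem' := fun ρ hρ _ => (BSDFF.placeOf ρ hρ).ring.one_mem
      add_mem' := fun ha hb ρ hρ h => (BSDFF.placeOf ρ hρ).ring.add_mem _ _ (ha ρ hρ h)
        (hb ρ hρ h)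
      zero_mem' := fun ρ hρ _ => (BSDFF.placeOf ρ hρ).ring.zero_mem
      neg_mem' := fun ha ρ hρ h => (BSDFF.placeOf ρ hρ).ring.neg_mem _ (ha ρ hρ h) }
  have hSpoly : ∀ f : k[X], cc f ∈ S := fun f ρ hρ _ => hpoly ρ hρ f
  have hSinv : (cc π)⁻¹ ∈ S := by
    intro ρ hρ hass
    have h1 : ¬ ρ ∣ π := fun h => hass (hρ.associated_of_dvd hπ h)
    rw [← ValuationSubring.valuation_le_one_iff, map_inv₀, BSDFF.Odd.valuation_eq_one hρ h1,
      inv_one]
  have ha : ∀ x : RatFunc k, x ≠ 0 → ∃ (n : ℤ) (u : RatFunc k),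
      (BSDFF.placeOf π hπ).ring.valuation u = 1 ∧ x = cc π ^ n * u := by
    intro x hx
    obtain ⟨p, q, hq, rfl⟩ := IsFractionRing.div_surjective (A := k[X]) x
    have hq0 : q ≠ 0 := nonZeroDivisors.ne_zero hq
    have hp0 : p ≠ 0 := by
      rintro rfl
      simp at hx
    obtain ⟨m, p', hp', rfl⟩ := hfac p hp0
    obtain ⟨l, q', hq', rfl⟩ := hfac q hq0
    have hq'0 : cc q' ≠ 0 := by
      have : q' ≠ 0 := fun h => hq' (h ▸ dvd_zero _)
      simpa [cc] using this
    refine ⟨(m : ℤ) - l, cc p' / cc q', ?_, ?_⟩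
    · rw [map_div₀, BSDFF.Odd.valuation_eq_one hπ hp', BSDFF.Odd.valuation_eq_one hπ hq', div_one]
    · rw [zpow_sub₀ hpi0, zpow_natCast, zpow_natCast]
      simp only [map_mul, map_pow]
      have hp2 : (algebraMap k[X] (RatFunc k)) π ≠ 0 := hpi0
      have hq2 : (algebraMap k[X] (RatFunc k)) q' ≠ 0 := hq'0
      field_simp
  have hb : ∀ x : RatFunc k, ∃ s ∈ S, ∃ y ∈ (BSDFF.placeOf π hπ).ring, x = s + y := by
    intro x
    obtain ⟨p, q, hq, rfl⟩ := IsFractionRing.div_surjective (A := k[X]) x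
    have hq0 : q ≠ 0 := nonZeroDivisors.ne_zero hq
    obtain ⟨l, q', hq', rfl⟩ := hfac q hq0
    have hq'0 : cc q' ≠ 0 := by
      have : q' ≠ 0 := fun h => hq' (h ▸ dvd_zero _)
      simpa [cc] using this
    have hcop : IsCoprime (π ^ l) q' := by
      refine IsCoprime.pow_left ?_
      exact (hπ.coprime_iff_not_dvd).2 hq'
    obtain ⟨α, β, hαβ⟩ := hcop
    refine ⟨cc (p * β) * (cc π)⁻¹ ^ l, S.mul_mem (hSpoly _) (S.pow_mem hSinv l),
      cc (p * α) / cc q', ?_, ?_⟩
    · rw [← ValuationSubring.valuation_le_one_iff, map_div₀,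
        BSDFF.Odd.valuation_eq_one hπ hq', div_one, ValuationSubring.valuation_le_one_iff]
      exact hpoly π hπ _
    · have hp2 : (algebraMap k[X] (RatFunc k)) π ≠ 0 := hpi0
      have hq2 : (algebraMap k[X] (RatFunc k)) q' ≠ 0 := hq'0
      have h1 := congrArg (algebraMap k[X] (RatFunc k)) hαβ
      simp only [map_add, map_mul, map_pow, map_one] at h1
      simp only [map_mul, map_pow]
      rw [inv_pow]
      field_simp
      linear_combination (-(algebraMap k[X] (RatFunc k)) p) * h1
  obtain ⟨U, T, h1, ⟨U', h2, h3, h4⟩, ⟨T', h5, h6, h7⟩⟩ := gl_abs (BSDFF.placeOf π hπ).ring S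
    (cc π) hpi0 (hSpoly π) hSinv ha hb n g ⟨g⁻¹, Matrix.mul_nonsing_inv g (Ne.isUnit hg)⟩
  exact ⟨U, U', T, T', h1, h2, h5, h3, h4, fun ρ hρ hass =>
    ⟨fun i j => h6 i j ρ hρ hass, fun i j => h7 i j ρ hρ hass⟩⟩

end Pool.Agent.HYP
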