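import Pool.Agent.Lib.HYP.G.MDesc
import Pool.Agent.Lib.HYP.F.Dict
import Pool.Agent.Lib.HYP.L.Det

/-!
Module G.Glue of MP_950c68_ag (genus g). A class which is a unit of `O[θ]` up to squares at all
primes of `k[t]` has a good basis over `k[t]`.
-/

set_option autoImplicit false

open Polynomial

namespace Pool.Agent.HYP

open Pool.Agent.BSDP

theorem std_map {S T : Type} [CommRing S] [CommRing T] (φ : S →+* T) (f : S[X]) (n : ℕ) :
    std (f.map φ) n = fun i => bc φ f (std f n i) := by
  funext i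
  unfold std
  rw [map_pow, bc_root]

/-- a unit of `O[θ]` up to squares has a good basis over `O` -/
theorem mgood_of_unitAt {F : Type} [Field F] (L : Loc F) {g : ℕ} (f : F[X]) (hf : f.Monic)
    (hn : f.natDegree = 2 * g + 1) (hc : Coef L f) (c : AdjoinRoot f) (h : UnitAt L c) :
    ∃ P : Matrix (Fin (2 * g + 1)) (Fin (2 * g + 1)) F,
      MGood L.O.toSubring (gram1 hf c (std f (2 * g + 1))) (gram2 hf c (std f (2 * g + 1))) P := by
  obtain ⟨p, hp, hpn, rfl⟩ := exists_monic_lift L f hc hf
  obtain ⟨e, y, he, hy, hce⟩ := (unitAt_iff L p hp c).1 h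
  obtain ⟨y', hyy⟩ := hy.exists_right_inv
  have hpn' : p.natDegree = 2 * g + 1 := hpn.trans hn
  set b : Fin (2 * g + 1) → AdjoinRoot (p.map (algebraMap L.O F)) := fun i => y' * std (p.map (algebraMap L.O F)) (2 * g + 1) i
    with hb
  have hcy : c * y' ^ 2 = bc (algebraMap L.O F) p e := by
    rw [hce, mul_assoc, ← mul_pow, hyy, one_pow, mul_one]
  have e1 : gram1 hf c b = (gram1 hp e (std p (2 * g + 1))).map (algebraMap L.O F) := by
    rw [hb, gram1_scale, hcy, std_map]
    exact gram1_bc hp (algebraMap L.O F) e (std p (2 * g + 1))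
  have e2 : gram2 hf c b = (gram2 hp e (std p (2 * g + 1))).map (algebraMap L.O F) := by
    rw [hb, gram2_scale, hcy, std_map]
    exact gram2_bc hp (algebraMap L.O F) e (std p (2 * g + 1))
  have f1 : coord hf b * gram1 hf c (std (p.map (algebraMap L.O F)) (2 * g + 1)) * (coord hf b).transpose =
      gram1 hf c b := by
    conv_rhs => rw [eq_coord hf hn b]
    exact (gram1_chb hf c (std (p.map (algebraMap L.O F)) (2 * g + 1)) (coord hf b)).symm
  have f2 : coord hf b * gram2 hf c (std (p.map (algebraMap L.O F)) (2 * g + 1)) * (coord hf b).transpose =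
      gram2 hf c b := by
    conv_rhs => rw [eq_coord hf hn b]
    exact (gram2_chb hf c (std (p.map (algebraMap L.O F)) (2 * g + 1)) (coord hf b)).symm
  refine ⟨coord hf b, ?_, ?_, ?_⟩
  · intro i j
    rw [f1, e1]
    exact (gram1 hp e (std p (2 * g + 1)) i j).2
  · intro i j
    rw [f2, e2]
    exact (gram2 hp e (std p (2 * g + 1)) i j).2
  · have hu : IsUnit (gram1 hp e (std p (2 * g + 1))).det := by
      rw [gram1_det hp hpn', coord_std hp hpn', Matrix.det_one, one_pow, mul_one]
      exact ((isUnit_one.neg).pow g).mul (he.map (Algebra.norm L.O))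
    obtain ⟨v, hv⟩ := hu.exists_left_inv
    refine ⟨algebraMap L.O F v, v.2, ?_⟩
    rw [f1, e1]
    have h1 : ((gram1 hp e (std p (2 * g + 1))).map (algebraMap L.O F)).det =
        algebraMap L.O F (gram1 hp e (std p (2 * g + 1))).det := (RingHom.map_det (algebraMap L.O F) _).symm
    rw [h1, ← map_mul, hv, map_one]

variable {k : Type} [Field k]

theorem coef_completion (f : k[X][X]) {π : k[X]} (hπ : Irreducible π)
    (L : LocAt (BSDFF.placeOf π hπ)) :
    Coef L.toLoc ((fK f).map (BSDFF.placeOf π hπ).toCompletion) := by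
  intro i
  rw [coeff_map, fK, coeff_map]
  exact (L.mem_iff _).2 (BSDFF.poly_mem _ (BSDFF.X_mem_placeOf π hπ) _)

/-- gluing -/
theorem glue {g : ℕ} (f : k[X][X]) (hm : (fK f).Monic) (hn : (fK f).natDegree = 2 * g + 1)
    (c : AdjoinRoot (fK f)) (hc : Algebra.norm (RatFunc k) c ≠ 0)
    (h : ∀ (π : k[X]) (hπ : Irreducible π), ∃ L : LocAt (BSDFF.placeOf π hπ),
      UnitAt L.toLoc (bc (BSDFF.placeOf π hπ).toCompletion (fK f) c)) :
    ∃ (b : Fin (2 * g + 1) → AdjoinRoot (fK f))
      (G1 G2 : Matrix (Fin (2 * g + 1)) (Fin (2 * g + 1)) k[X]), Good hm c b G1 G2 := by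
  classical
  set A1 := gram1 hm c (std (fK f) (2 * g + 1)) with hA1
  set A2 := gram2 hm c (std (fK f) (2 * g + 1)) with hA2
  have hd : A1.det ≠ 0 := by
    rw [hA1, gram1_det hm hn, coord_std hm hn, Matrix.det_one, one_pow, mul_one]
    exact mul_ne_zero (pow_ne_zero _ (neg_ne_zero.2 one_ne_zero)) hc
  obtain ⟨P, hP⟩ := mglue A1 A2 hd (by
    intro π hπ
    obtain ⟨L, hL⟩ := h π hπ
    have hn' : ((fK f).map (BSDFF.placeOf π hπ).toCompletion).natDegree = 2 * g + 1 := by
      rw [hm.natDegree_map, hn]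
    obtain ⟨Q, hQ⟩ := mgood_of_unitAt L.toLoc _ (hm.map _) hn' (coef_completion f hπ L) _ hL
    refine mdesc L A1 A2 Q ?_
    have e1 : gram1 (hm.map (BSDFF.placeOf π hπ).toCompletion)
        (bc (BSDFF.placeOf π hπ).toCompletion (fK f) c)
        (std ((fK f).map (BSDFF.placeOf π hπ).toCompletion) (2 * g + 1)) =
        A1.map (BSDFF.placeOf π hπ).toCompletion := by
      rw [std_map]
      exact gram1_bc hm _ c (std (fK f) (2 * g + 1))
    have e2 : gram2 (hm.map (BSDFF.placeOf π hπ).toCompletion)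
        (bc (BSDFF.placeOf π hπ).toCompletion (fK f) c)
        (std ((fK f).map (BSDFF.placeOf π hπ).toCompletion) (2 * g + 1)) =
        A2.map (BSDFF.placeOf π hπ).toCompletion := by
      rw [std_map]
      exact gram2_bc hm _ c (std (fK f) (2 * g + 1))
    rw [e1, e2] at hQ
    exact hQ)
  have f1 : gram1 hm c (fun i => ∑ j, P i j • std (fK f) (2 * g + 1) j) =
      P * A1 * P.transpose := gram1_chb hm c _ P
  have f2 : gram2 hm c (fun i => ∑ j, P i j • std (fK f) (2 * g + 1) j) =
      P * A2 * P.transpose := gram2_chb hm c _ P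
  choose G1 hG1 using hP.g1
  choose G2 hG2 using hP.g2
  have g1 : (P * A1 * P.transpose) = (Matrix.of G1).map (algebraMap k[X] (RatFunc k)) := by
    ext i j
    rw [Matrix.map_apply, Matrix.of_apply]
    exact (hG1 i j).symm
  have g2 : (P * A2 * P.transpose) = (Matrix.of G2).map (algebraMap k[X] (RatFunc k)) := by
    ext i j
    rw [Matrix.map_apply, Matrix.of_apply]
    exact (hG2 i j).symm
  refine ⟨fun i => ∑ j, P i j • std (fK f) (2 * g + 1) j, Matrix.of G1, Matrix.of G2, ?_, ?_, ?_⟩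
  · rw [f1, g1]
  · rw [f2, g2]
  · obtain ⟨u, ⟨v, rfl⟩, hu⟩ := hP.unit
    rw [g1] at hu
    have h1 : ((Matrix.of G1).map (algebraMap k[X] (RatFunc k))).det =
        algebraMap k[X] (RatFunc k) (Matrix.of G1).det := (RingHom.map_det _ _).symm
    rw [h1, ← map_mul, ← map_one (algebraMap k[X] (RatFunc k))] at hu
    have h2 := IsFractionRing.injective k[X] (RatFunc k) hu
    rw [mul_comm] at h2
    exact IsUnit.of_mul_eq_one _ h2

end Pool.Agent.HYP
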