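import Pool.Agent.Lib.HYP.G.MGlue

/-!
Module G.MDesc of MP_950c68_ag (genus g). Approximation: a matrix `P` over the completion at `w`
such that `P G1 Pᵀ`, `P G2 Pᵀ` are integral with unit determinant can be replaced by a matrix over
`k(t)`.
-/

set_option autoImplicit false

open Polynomial

namespace Pool.Agent.HYP

open Pool.Agent.BSDP

/-- all entries have value at most `r` -/
private def EBd {F : Type} [Field F] (O : ValuationSubring F) {n : ℕ} (r : O.ValueGroup)
    (M : Matrix (Fin n) (Fin n) F) : Prop := ∀ i j, O.valuation (M i j) ≤ r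

private theorem ebd_mul {F : Type} [Field F] {O : ValuationSubring F} {n : ℕ}
    {r r' : O.ValueGroup} {M N : Matrix (Fin n) (Fin n) F} (hM : EBd O r M) (hN : EBd O r' N) :
    EBd O (r * r') (M * N) := by
  intro i j
  rw [Matrix.mul_apply]
  refine Valuation.map_sum_le _ fun s _ => ?_
  rw [map_mul]
  exact mul_le_mul' (hM i s) (hN s j)

private theorem ebd_tr {F : Type} [Field F] {O : ValuationSubring F} {n : ℕ}
    {r : O.ValueGroup} {M : Matrix (Fin n) (Fin n) F} (hM : EBd O r M) : EBd O r M.transpose :=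
  fun i j => hM j i

private theorem ebd_exists {F : Type} [Field F] (O : ValuationSubring F) {n : ℕ}
    (M : Matrix (Fin n) (Fin n) F) : ∃ ρ : O.ValueGroup, 1 ≤ ρ ∧ EBd O ρ M := by
  obtain ⟨ρ, hρ⟩ := (Set.finite_range fun ij : Fin n × Fin n =>
    O.valuation (M ij.1 ij.2)).bddAbove
  exact ⟨1 ⊔ ρ, le_sup_left, fun i j => (hρ ⟨(i, j), rfl⟩).trans le_sup_right⟩

private theorem ebd_mono {F : Type} [Field F] {O : ValuationSubring F} {n : ℕ}
    {r r' : O.ValueGroup} {M : Matrix (Fin n) (Fin n) F} (hM : EBd O r M) (h : r ≤ r') :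
    EBd O r' M := fun i j => (hM i j).trans h

/-- determinants of congruent matrices -/
private theorem det_congr {F : Type} [Field F] (O : ValuationSubring F) {n : ℕ}
    {M N : Matrix (Fin n) (Fin n) F} (hM : ∀ i j, M i j ∈ O) (hN : ∀ i j, N i j ∈ O)
    (h : ∀ i j, O.valuation (M i j - N i j) < 1) : O.valuation (M.det - N.det) < 1 := by
  let M₀ : Matrix (Fin n) (Fin n) O := Matrix.of fun i j => ⟨M i j, hM i j⟩
  let N₀ : Matrix (Fin n) (Fin n) O := Matrix.of fun i j => ⟨N i j, hN i j⟩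
  have hMd : M.det = ((M₀.det : O) : F) := (O.subtype.map_det M₀).symm
  have hNd : N.det = ((N₀.det : O) : F) := (O.subtype.map_det N₀).symm
  have h1 : IsLocalRing.residue O M₀.det = IsLocalRing.residue O N₀.det := by
    rw [RingHom.map_det, RingHom.map_det]
    congr 1
    ext i j
    show IsLocalRing.residue O ⟨M i j, hM i j⟩ = IsLocalRing.residue O ⟨N i j, hN i j⟩
    rw [← sub_eq_zero, ← map_sub, IsLocalRing.residue_eq_zero_iff, O.valuation_lt_one_iff]
    exact h i j
  rw [← sub_eq_zero, ← map_sub, IsLocalRing.residue_eq_zero_iff, O.valuation_lt_one_iff] at h1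
  rw [hMd, hNd]
  exact h1

variable {k : Type} [Field k]

theorem mdesc {w : BSDFF.Place k (RatFunc k)} (L : LocAt w) {n : ℕ}
    (G1 G2 : Matrix (Fin n) (Fin n) (RatFunc k))
    (P : Matrix (Fin n) (Fin n) w.ring.valuation.Completion)
    (h : MGood L.O.toSubring (G1.map w.toCompletion) (G2.map w.toCompletion) P) :
    ∃ P' : Matrix (Fin n) (Fin n) (RatFunc k), MGood w.ring.toSubring G1 G2 P' := by
  obtain ⟨ρ1, h11, hG1⟩ := ebd_exists L.O (G1.map w.toCompletion)
  obtain ⟨ρ2, h12, hG2⟩ := ebd_exists L.O (G2.map w.toCompletion)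
  obtain ⟨ρ3, h13, hP0⟩ := ebd_exists L.O P
  obtain ⟨ρ, hρ1, hρa, hρb, hρc⟩ : ∃ ρ : L.O.ValueGroup, 1 ≤ ρ ∧ ρ1 ≤ ρ ∧ ρ2 ≤ ρ ∧ ρ3 ≤ ρ :=
    ⟨ρ1 ⊔ (ρ2 ⊔ ρ3), h11.trans le_sup_left, le_sup_left, le_sup_left.trans le_sup_right,
      le_sup_right.trans le_sup_right⟩
  replace hG1 := ebd_mono hG1 hρa
  replace hG2 := ebd_mono hG2 hρb
  have hP := ebd_mono hP0 hρc
  have hpi : L.O.valuation L.pi < 1 := (L.pi_gen L.pi).2 ⟨1, one_mem _, (mul_one _).symm⟩
  have hpi0 : L.O.valuation L.pi ≠ 0 := (Valuation.ne_zero_iff _).2 L.pi_ne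
  have hρ0 : ρ ≠ 0 := (zero_lt_one.trans_le hρ1).ne'
  have hT0 : ρ * ρ ≠ 0 := mul_ne_zero hρ0 hρ0
  have hT1 : 1 ≤ ρ * ρ := one_le_mul hρ1 hρ1
  obtain ⟨d, hd⟩ := L.O.valuation_surjective ((ρ * ρ)⁻¹ * L.O.valuation L.pi)
  have hd0 : d ≠ 0 := by
    rw [← Valuation.ne_zero_iff L.O.valuation, hd]
    exact mul_ne_zero (inv_ne_zero hT0) hpi0
  have hd1 : L.O.valuation d ≤ 1 := by
    rw [hd]
    exact mul_le_one' (inv_le_one_of_one_le₀ hT1) hpi.le
  choose a ha using fun x => L.dense x d hd0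
  set P' : Matrix (Fin n) (Fin n) (RatFunc k) := Matrix.of fun i j => a (P i j) with hP'
  set Q := P'.map w.toCompletion with hQ
  have hE : EBd L.O (L.O.valuation d) (P - Q) := fun i j => (ha (P i j)).le
  have hQb : EBd L.O ρ Q := by
    intro i j
    have h2 : Q i j = P i j - (P - Q) i j := by rw [Matrix.sub_apply]; ring
    rw [h2]
    exact Valuation.map_sub_le _ (hP i j) ((hE i j).trans (hd1.trans hρ1))
  have key : ∀ G : Matrix (Fin n) (Fin n) w.ring.valuation.Completion, EBd L.O ρ G → ∀ i j,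
      L.O.valuation ((P * G * P.transpose) i j - (Q * G * Q.transpose) i j) < 1 := by
    intro G hG i j
    have h2 : P * G * P.transpose - Q * G * Q.transpose =
        (P - Q) * G * P.transpose + Q * G * (P - Q).transpose := by
      rw [Matrix.transpose_sub]
      simp only [Matrix.sub_mul, Matrix.mul_sub]
      abel
    have h3 := ebd_mul (ebd_mul hE hG) (ebd_tr hP) i j
    have h4 := ebd_mul (ebd_mul hQb hG) (ebd_tr hE) i j
    have h5 : L.O.valuation d * ρ * ρ = L.O.valuation L.pi := by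
      rw [hd, mul_assoc, mul_comm ((ρ * ρ)⁻¹) _, mul_assoc, inv_mul_cancel₀ hT0, mul_one]
    have h6 : ρ * ρ * L.O.valuation d = L.O.valuation L.pi := by
      rw [← h5, mul_comm, mul_assoc]
    rw [h5] at h3
    rw [h6] at h4
    rw [← Matrix.sub_apply, h2, Matrix.add_apply]
    exact (Valuation.map_add_le _ h3 h4).trans_lt hpi
  have hO : ∀ {x y : w.ring.valuation.Completion}, x ∈ L.O → L.O.valuation (x - y) < 1 →
      y ∈ L.O := by
    intro x y hx hxy
    have h2 : y = x - (x - y) := by ring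
    rw [h2]
    exact L.O.toSubring.sub_mem hx ((L.O.valuation_le_one_iff _).1 hxy.le)
  have hmap : ∀ G : Matrix (Fin n) (Fin n) (RatFunc k),
      Q * G.map w.toCompletion * Q.transpose = (P' * G * P'.transpose).map w.toCompletion := by
    intro G
    rw [Matrix.map_mul, Matrix.map_mul, Matrix.transpose_map]
  have hm1 : ∀ i j, (Q * G1.map w.toCompletion * Q.transpose) i j ∈ L.O :=
    fun i j => hO (h.g1 i j) (key _ hG1 i j)
  have hm2 : ∀ i j, (Q * G2.map w.toCompletion * Q.transpose) i j ∈ L.O :=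
    fun i j => hO (h.g2 i j) (key _ hG2 i j)
  -- the determinant
  obtain ⟨u, hu, hu1⟩ := h.unit
  have hdet1 : L.O.valuation (P * G1.map w.toCompletion * P.transpose).det = 1 := by
    have h2 : L.O.valuation u *
        L.O.valuation (P * G1.map w.toCompletion * P.transpose).det = 1 := by
      rw [← map_mul, hu1, map_one]
    have h3 : L.O.valuation u ≤ 1 := (L.O.valuation_le_one_iff _).2 hu
    have h4 : L.O.valuation (P * G1.map w.toCompletion * P.transpose).det ≤ 1 :=
      (L.O.valuation_le_one_iff _).2 (mat_det_mem L.O.toSubring h.g1)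
    refine le_antisymm h4 (not_lt.1 fun h5 => ?_)
    rw [mul_comm] at h2
    exact absurd h2 (ne_of_lt (mul_lt_one_of_lt_of_le h5 h3))
  have hdet2 : L.O.valuation (Q * G1.map w.toCompletion * Q.transpose).det = 1 := by
    have h2 := det_congr L.O h.g1 hm1 (key _ hG1)
    rw [← hdet1] at h2
    have h3 := Valuation.map_sub_eq_of_lt_left _ h2
    rw [sub_sub_cancel] at h3
    rw [h3, hdet1]
  have hdetc : w.toCompletion (P' * G1 * P'.transpose).det =
      (Q * G1.map w.toCompletion * Q.transpose).det := by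
    rw [hmap]
    exact w.toCompletion.map_det _
  rw [← hdetc] at hdet2
  refine ⟨P', fun i j => (L.mem_iff _).1 ?_, fun i j => (L.mem_iff _).1 ?_,
    (P' * G1 * P'.transpose).det⁻¹, ?_, ?_⟩
  · have h2 := hm1 i j
    rw [hmap] at h2
    exact h2
  · have h2 := hm2 i j
    rw [hmap] at h2
    exact h2
  · refine (L.mem_iff _).1 ((L.O.valuation_le_one_iff _).1 ?_)
    rw [map_inv₀, map_inv₀, hdet2, inv_one]
  · refine inv_mul_cancel₀ fun h2 => ?_
    rw [h2, map_zero, map_zero] at hdet2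
    exact zero_ne_one hdet2

end Pool.Agent.HYP
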