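import Pool.Agent.Lib.HYP.G.GL

/-!
Module G.MGlue of MP_950c68_ag (genus g). Gluing for pairs of symmetric matrices: if for every
prime `π` of `k[t]` there is a matrix `P` such that `P G1 Pᵀ`, `P G2 Pᵀ` are integral at `π` and
`det (P G1 Pᵀ)` is a unit at `π`, then there is one `P` for all `π`.
-/

set_option autoImplicit false

open Polynomial

namespace Pool.Agent.HYP

open Pool.Agent.BSDP

/-- `P G1 Pᵀ` and `P G2 Pᵀ` have entries in `R` and `det (P G1 Pᵀ)` is a unit of `R`. -/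
structure MGood {F : Type} [Field F] (R : Subring F) {n : ℕ} (G1 G2 P : Matrix (Fin n) (Fin n) F) :
    Prop where
  g1 : ∀ i j, (P * G1 * P.transpose) i j ∈ R
  g2 : ∀ i j, (P * G2 * P.transpose) i j ∈ R
  unit : ∃ u ∈ R, u * (P * G1 * P.transpose).det = 1

theorem mat_mul_mem {F : Type} [Field F] (R : Subring F) {n : ℕ}
    {U V : Matrix (Fin n) (Fin n) F} (hU : ∀ i j, U i j ∈ R) (hV : ∀ i j, V i j ∈ R) (i j) :
    (U * V) i j ∈ R := by
  rw [Matrix.mul_apply]
  exact R.sum_mem fun s _ => R.mul_mem (hU i s) (hV s j)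

theorem mat_det_mem {F : Type} [Field F] (R : Subring F) {n : ℕ}
    {U : Matrix (Fin n) (Fin n) F} (hU : ∀ i j, U i j ∈ R) : U.det ∈ R := by
  rw [Matrix.det_apply]
  refine R.sum_mem fun s _ => ?_
  rw [Units.smul_def, zsmul_eq_mul]
  exact R.mul_mem (intCast_mem R _) (R.prod_mem fun i _ => hU _ _)

theorem MGood.mul {F : Type} [Field F] {R : Subring F} {n : ℕ}
    {G1 G2 P : Matrix (Fin n) (Fin n) F} (h : MGood R G1 G2 P) {U U' : Matrix (Fin n) (Fin n) F}
    (hU : ∀ i j, U i j ∈ R) (hU' : ∀ i j, U' i j ∈ R) (hUU : U * U' = 1) :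
    MGood R G1 G2 (U * P) := by
  have e : ∀ G : Matrix (Fin n) (Fin n) F, U * P * G * (U * P).transpose =
      U * (P * G * P.transpose) * U.transpose := by
    intro G
    rw [Matrix.transpose_mul]
    simp only [Matrix.mul_assoc]
  have hUt : ∀ i j, U.transpose i j ∈ R := fun i j => hU j i
  refine ⟨?_, ?_, ?_⟩
  · rw [e]
    exact mat_mul_mem R (mat_mul_mem R hU h.g1) hUt
  · rw [e]
    exact mat_mul_mem R (mat_mul_mem R hU h.g2) hUt
  · obtain ⟨u, hu, hu1⟩ := h.unit
    have hd : U.det * U'.det = 1 := by rw [← Matrix.det_mul, hUU, Matrix.det_one]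
    refine ⟨u * (U'.det * U'.det), R.mul_mem hu (R.mul_mem (mat_det_mem R hU')
      (mat_det_mem R hU')), ?_⟩
    rw [e, Matrix.det_mul, Matrix.det_mul, Matrix.det_transpose]
    calc u * (U'.det * U'.det) * (U.det * (P * G1 * P.transpose).det * U.det) =
        (u * (P * G1 * P.transpose).det) * (U.det * U'.det) * (U.det * U'.det) := by ring
      _ = 1 := by rw [hu1, hd, one_mul, one_mul]

theorem MGood.det_ne_zero {F : Type} [Field F] {R : Subring F} {n : ℕ}
    {G1 G2 P : Matrix (Fin n) (Fin n) F} (h : MGood R G1 G2 P) : P.det ≠ 0 := by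
  intro h0
  obtain ⟨u, -, hu⟩ := h.unit
  rw [Matrix.det_mul, Matrix.det_mul, h0] at hu
  simp at hu

variable {k : Type} [Field k]

private theorem mg_mem {π : k[X]} (hπ : Irreducible π) (x : RatFunc k) :
    x ∈ (BSDFF.placeOf π hπ).ring ↔ ¬ π ∣ x.denom :=
  BSDFF.ring_mem_iff _ (BSDFF.X_mem_placeOf π hπ) hπ (BSDFF.nonunit_placeOf π hπ) x

theorem mem_polys_of_forall {x : RatFunc k}
    (h : ∀ (π : k[X]) (hπ : Irreducible π), x ∈ (BSDFF.placeOf π hπ).ring) : x ∈ polys k := by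
  have hu : IsUnit x.denom := by
    by_contra hu
    obtain ⟨π, hπ, hd⟩ := WfDvdMonoid.exists_irreducible_factor hu (RatFunc.denom_ne_zero x)
    exact (mg_mem hπ x).1 (h π hπ) hd
  have h1 : x.denom = 1 := (RatFunc.monic_denom x).eq_one_of_isUnit hu
  refine ⟨x.num, ?_⟩
  have h3 := RatFunc.num_div_denom x
  rw [h1, map_one, div_one] at h3
  exact h3

private theorem mg_step {n : ℕ} (G1 G2 : Matrix (Fin n) (Fin n) (RatFunc k))
    (h : ∀ (π : k[X]) (hπ : Irreducible π), ∃ P,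
      MGood (BSDFF.placeOf π hπ).ring.toSubring G1 G2 P)
    (S : Finset k[X]) (hS : ∀ π ∈ S, π.Monic ∧ Irreducible π) :
    ∃ C : Matrix (Fin n) (Fin n) (RatFunc k), C.det ≠ 0 ∧
      (∀ π ∈ S, ∀ hπ : Irreducible π, MGood (BSDFF.placeOf π hπ).ring.toSubring G1 G2 C) ∧
      ∀ (ρ : k[X]) (hρ : Irreducible ρ), (∀ π ∈ S, ¬ Associated ρ π) →
        MGood (BSDFF.placeOf ρ hρ).ring.toSubring G1 G2 1 →
        MGood (BSDFF.placeOf ρ hρ).ring.toSubring G1 G2 C := by
  classical
  induction S using Finset.induction_on with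
  | empty =>
    refine ⟨1, ?_, by simp, fun ρ hρ _ hg => hg⟩
    rw [Matrix.det_one]
    exact one_ne_zero
  | insert π S hπS ih =>
    obtain ⟨C, hC, hCS, hCρ⟩ := ih fun σ hσ => hS σ (Finset.mem_insert_of_mem hσ)
    obtain ⟨hπm, hπ⟩ := hS π (Finset.mem_insert_self _ _)
    obtain ⟨B, hB⟩ := h π hπ
    have hB0 := hB.det_ne_zero
    have hCu : IsUnit C.det := isUnit_iff_ne_zero.2 hC
    have hg0 : (B * C⁻¹).det ≠ 0 := by
      rw [Matrix.det_mul, Matrix.det_nonsing_inv, Ring.inverse_eq_inv']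
      exact mul_ne_zero hB0 (inv_ne_zero hC)
    obtain ⟨U, U', T, T', hUT, hUU, hTT, hU, hU', hT⟩ := gl_decomp π hπ (B * C⁻¹) hg0
    have hBC : B = U * (T * C) := by
      rw [← Matrix.mul_assoc, ← hUT, Matrix.mul_assoc, Matrix.nonsing_inv_mul _ hCu,
        Matrix.mul_one]
    have hU'U : U' * U = 1 := mul_eq_one_comm.1 hUU
    have hTC : T * C = U' * B := by
      rw [hBC, ← Matrix.mul_assoc, hU'U, Matrix.one_mul]
    refine ⟨T * C, ?_, ?_, ?_⟩
    · rw [Matrix.det_mul]
      refine mul_ne_zero ?_ hC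
      intro h0
      have h1 : T.det * T'.det = 1 := by rw [← Matrix.det_mul, hTT, Matrix.det_one]
      rw [h0, zero_mul] at h1
      exact zero_ne_one h1
    · intro σ hσ hσi
      rw [Finset.mem_insert] at hσ
      rcases hσ with rfl | hσ
      · rw [hTC]
        exact hB.mul hU' hU hU'U
      · have hna : ¬ Associated σ π := by
          intro ha
          have := hS σ (Finset.mem_insert_of_mem hσ)
          have h2 : σ = π := eq_of_monic_of_associated this.1 hπm ha
          exact hπS (h2 ▸ hσ)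
        obtain ⟨hT1, hT2⟩ := hT σ hσi hna
        exact (hCS σ hσ hσi).mul hT1 hT2 hTT
    · intro ρ hρ hna hg
      obtain ⟨hT1, hT2⟩ := hT ρ hρ (hna π (Finset.mem_insert_self _ _))
      exact (hCρ ρ hρ (fun σ hσ => hna σ (Finset.mem_insert_of_mem hσ)) hg).mul hT1 hT2 hTT

/-- gluing of the matrices -/
theorem mglue {n : ℕ} (G1 G2 : Matrix (Fin n) (Fin n) (RatFunc k)) (hd : G1.det ≠ 0)
    (h : ∀ (π : k[X]) (hπ : Irreducible π), ∃ P,
      MGood (BSDFF.placeOf π hπ).ring.toSubring G1 G2 P) :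
    ∃ P, MGood (polys k) G1 G2 P := by
  classical
  set Q : k[X] := (∏ i, ∏ j, (G1 i j).denom) * (∏ i, ∏ j, (G2 i j).denom) * (G1.det⁻¹).denom
    with hQ
  have hQ0 : Q ≠ 0 := by
    rw [hQ]
    refine mul_ne_zero (mul_ne_zero ?_ ?_) (RatFunc.denom_ne_zero _)
    · exact Finset.prod_ne_zero_iff.2 fun i _ => Finset.prod_ne_zero_iff.2 fun j _ =>
        RatFunc.denom_ne_zero _
    · exact Finset.prod_ne_zero_iff.2 fun i _ => Finset.prod_ne_zero_iff.2 fun j _ =>
        RatFunc.denom_ne_zero _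
  have hstd : ∀ (π : k[X]) (hπ : Irreducible π), ¬ π ∣ Q →
      MGood (BSDFF.placeOf π hπ).ring.toSubring G1 G2 1 := by
    intro π hπ hdv
    have h1 : ∀ i j, G1 i j ∈ (BSDFF.placeOf π hπ).ring := fun i j => (mg_mem hπ _).2 fun hx =>
      hdv (hx.trans (((Finset.dvd_prod_of_mem (fun j => (G1 i j).denom) (Finset.mem_univ j)).trans
        (Finset.dvd_prod_of_mem (fun i => ∏ j, (G1 i j).denom) (Finset.mem_univ i))).trans
        (Dvd.intro _ (by rw [hQ, mul_assoc]))))
    have h2 : ∀ i j, G2 i j ∈ (BSDFF.placeOf π hπ).ring := fun i j => (mg_mem hπ _).2 fun hx =>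
      hdv (hx.trans (((Finset.dvd_prod_of_mem (fun j => (G2 i j).denom) (Finset.mem_univ j)).trans
        (Finset.dvd_prod_of_mem (fun i => ∏ j, (G2 i j).denom) (Finset.mem_univ i))).trans
        ((Dvd.intro_left _ rfl).trans (Dvd.intro _ (by rw [hQ])))))
    have h3 : G1.det⁻¹ ∈ (BSDFF.placeOf π hπ).ring := (mg_mem hπ _).2 fun hx =>
      hdv (hx.trans (Dvd.intro_left _ (by rw [hQ])))
    refine ⟨?_, ?_, G1.det⁻¹, h3, ?_⟩
    · intro i j
      rw [Matrix.one_mul, Matrix.transpose_one, Matrix.mul_one]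
      exact h1 i j
    · intro i j
      rw [Matrix.one_mul, Matrix.transpose_one, Matrix.mul_one]
      exact h2 i j
    · rw [Matrix.one_mul, Matrix.transpose_one, Matrix.mul_one]
      exact inv_mul_cancel₀ hd
  have hSm : ∀ π ∈ (UniqueFactorizationMonoid.normalizedFactors Q).toFinset,
      π.Monic ∧ Irreducible π := by
    intro π hπ
    rw [Multiset.mem_toFinset] at hπ
    have hi := UniqueFactorizationMonoid.irreducible_of_normalized_factor π hπ
    refine ⟨?_, hi⟩
    have hn := UniqueFactorizationMonoid.normalize_normalized_factor π hπ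
    rw [← hn]
    exact Polynomial.monic_normalize hi.ne_zero
  obtain ⟨C, hC, hCS, hCρ⟩ := mg_step G1 G2 h _ hSm
  have hall : ∀ (π : k[X]) (hπ : Irreducible π),
      MGood (BSDFF.placeOf π hπ).ring.toSubring G1 G2 C := by
    intro π hπ
    by_cases hdv : π ∣ Q
    · obtain ⟨π', hπ', ha⟩ :=
        UniqueFactorizationMonoid.exists_mem_normalizedFactors_of_dvd hQ0 hπ hdv
      have hi' := UniqueFactorizationMonoid.irreducible_of_normalized_factor π' hπ'
      have hg := hCS π' (Multiset.mem_toFinset.2 hπ') hi'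
      have hpl : BSDFF.placeOf π hπ = BSDFF.placeOf π' hi' := by
        refine BSDFF.eq_placeOf _ (BSDFF.X_mem_placeOf π hπ) hi' ?_
        rw [BSDFF.polyHom_unit_iff _ (BSDFF.X_mem_placeOf π hπ) hπ (BSDFF.nonunit_placeOf π hπ)]
        exact not_not.2 ha.dvd
      rw [hpl]
      exact hg
    · refine hCρ π hπ (fun σ hσ ha => hdv ?_) (hstd π hπ hdv)
      exact ha.dvd.trans (UniqueFactorizationMonoid.dvd_of_mem_normalizedFactors
        (Multiset.mem_toFinset.1 hσ))
  refine ⟨C, fun i j => mem_polys_of_forall fun π hπ => (hall π hπ).g1 i j,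
    fun i j => mem_polys_of_forall fun π hπ => (hall π hπ).g2 i j,
    (C * G1 * C.transpose).det⁻¹, mem_polys_of_forall fun π hπ => ?_, inv_mul_cancel₀ ?_⟩
  · obtain ⟨u, hu, hu1⟩ := (hall π hπ).unit
    rw [← eq_inv_of_mul_eq_one_left hu1]
    exact hu
  · rw [Matrix.det_mul, Matrix.det_mul, Matrix.det_transpose]
    exact mul_ne_zero (mul_ne_zero hC hd) hC

end Pool.Agent.HYP
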