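import Pool.Agent.Lib.HYP.G.Step
import Pool.Agent.Lib.HYP.G.Glue
import Pool.Agent.Lib.BSDP.T.Greedy

/-!
Module G.Twist: a polynomial of the family all of whose nontrivial classes are detected has a
quadratic twist with trivial `2`-Selmer group.
-/

set_option autoImplicit false

open Polynomial

namespace Pool.Agent.HYP

open Pool.Agent.BSDP Pool.Agent.BSDP.R

private theorem unitAt_of_isSquare {F : Type} [Field F] (L : Loc F) {f : F[X]} (c : AdjoinRoot f)
    (hc : IsUnit c) (hs : IsSquare c) : UnitAt L c := by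
  obtain ⟨y, hy⟩ := hs
  have h1 : IntE L (1 : AdjoinRoot f) := by
    refine ⟨1, fun i => ?_, (map_one _).symm⟩
    rw [coeff_one]
    split_ifs
    · exact one_mem _
    · exact zero_mem _
  refine ⟨1, 1, y, h1, h1, one_mul 1, ?_, by rw [hy, one_mul, pow_two]⟩
  rw [hy] at hc
  exact isUnit_of_mul_isUnit_left hc

theorem twist {k : Type} [Field k] [Finite k] (g : ℕ) (hg : 2 ≤ g) (hp : 2 * g + 1 < ringChar k)
    {φ : k[X]} (hφ : LeadForm g φ) {m : ℕ} {f : k[X][X]} (hf : Fam g m φ f) {V : Finset k[X]}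
    (hV : ∀ π ∈ V, π.Monic ∧ Irreducible π) (h : AllDet g V f) :
    ∃ W ⊆ V, SelTriv g (f.scaleRoots (∏ π ∈ W, π)) := by
  classical
  have h2 : (2 : k) ≠ 0 := by
    intro h0
    have h1 : ((2 : ℕ) : k) = 0 := by exact_mod_cast h0
    have := Nat.le_of_dvd (by norm_num) ((ringChar.spec k 2).1 h1)
    omega
  have hg1 : 1 ≤ g := by omega
  have hm : (fK f).Monic := hf.monic.map _
  have hKn : (fK f).natDegree = 2 * g + 1 := by rw [hf.monic.natDegree_map, hf.deg]
  obtain ⟨l, hl1, hl2, hl3, hl4⟩ := greedy V (fun c : AdjoinRoot (fK f) => InU g hm c)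
    (fun c => IsSquare c)
    (fun π c => InU g hm c ∧ ∃ hπ : Irreducible π, haveI : Fact (Irreducible π) := ⟨hπ⟩; DetG g hm π c)
    (fun π c => ∀ hπ : Irreducible π, IsSquare (bc (BSDFF.placeOf π hπ).toCompletion (fK f) c))
    (by
      intro c hc hs
      obtain ⟨π, hπV, hπ, hd⟩ := h hm c hc hs
      exact ⟨π, hπV, hc, hπ, hd⟩)
    (by
      rintro π c - ⟨hc, hπ, hd⟩ hsq
      obtain ⟨L, -⟩ := exists_locAt_complete h2 (BSDFF.placeOf π hπ)
      obtain ⟨ξ, hh, H, hE⟩ := eta_of_det hπ L hg1 hf.monic hf.deg (hf.reg π hπ) hm c hc.1 hd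
      exact hE.ns ((hsq hπ).map _))
  set W : Finset k[X] := (l.map Prod.fst).toFinset with hWdef
  have hWV : W ⊆ V := by
    intro π hπ
    rw [hWdef, List.mem_toFinset, List.mem_map] at hπ
    obtain ⟨p, hp, rfl⟩ := hπ
    exact (hl2 p hp).1
  have hW : ∀ π ∈ W, π.Monic ∧ Irreducible π := fun π hπ => hV π (hWV hπ)
  refine ⟨W, hWV, ?_⟩
  intro c' hn hl
  have hD0 : (∏ σ ∈ W, σ) ≠ 0 := Finset.prod_ne_zero_iff.2 fun σ hσ => (hW σ hσ).2.ne_zero
  have hccD0 : cc (∏ σ ∈ W, σ) ≠ 0 := by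
    rw [cc, map_ne_zero_iff _ (RatFunc.algebraMap_injective k)]
    exact hD0
  have hs : fK (f.scaleRoots (∏ σ ∈ W, σ)) = (fK f).scaleRoots (cc (∏ σ ∈ W, σ)) :=
    fK_scale hf.monic _
  have hcn : SqNorm (dn _ hs c') := (sqNorm_dn hm hccD0 hs c').2 hn
  have hcu : IsUnit (dn _ hs c') := isUnit_of_sqNorm hm hcn
  -- squares at all places of the list, from the last one to the first one
  have key : ∀ (l2 l1 : List (k[X] × AdjoinRoot (fK f))), l = l1 ++ l2 → ∀ p ∈ l2,
      ∀ hπ : Irreducible p.1,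
        IsSquare (bc (BSDFF.placeOf p.1 hπ).toCompletion (fK f) (dn _ hs c')) := by
    intro l2
    induction l2 with
    | nil =>
      intro l1 _ p hp
      exact absurd hp (List.not_mem_nil)
    | cons p l2 ih =>
      intro l1 hl12 q hq
      have ih' := ih (l1 ++ [p]) (by rw [hl12]; simp)
      rw [List.mem_cons] at hq
      rcases hq with rfl | hq
      · intro hπ
        have hql : q ∈ l := by rw [hl12]; simp
        obtain ⟨hqV, hqU, -, hqπ, hqd⟩ := hl2 q hql
        refine step hg1 h2 hφ hf hm hW hs c' hn hl ?_ hπ q.2 hqU hqd ?_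
        · rw [hWdef, List.mem_toFinset]
          exact List.mem_map_of_mem hql
        · intro π' hπ'W hne hπ'
          rw [hWdef, List.mem_toFinset, List.mem_map] at hπ'W
          obtain ⟨r, hr, rfl⟩ := hπ'W
          rw [hl12, List.mem_append, List.mem_cons] at hr
          rcases hr with hr | rfl | hr
          · right
            rw [hl12, List.pairwise_append] at hl3
            exact hl3.2.2 r hr q (List.mem_cons_self) hπ'
          · exact absurd rfl hne
          · left
            exact ih' r hr hπ'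
      · exact ih' q hq
  have hall : ∀ p ∈ l, ∀ hπ : Irreducible p.1,
      IsSquare (bc (BSDFF.placeOf p.1 hπ).toCompletion (fK f) (dn _ hs c')) := key l [] rfl
  have hunit : ∀ v : BSDFF.Place k (RatFunc k), v ≠ BSDFF.placeInfty k →
      ∃ L : LocAt v, UnitAt L.toLoc (bc v.toCompletion (fK f) (dn _ hs c')) := by
    intro v hv
    rcases place_cases v with rfl | ⟨π, hπ, hπm, rfl⟩
    · exact absurd rfl hv
    · obtain ⟨L, -⟩ := exists_locAt_complete h2 (BSDFF.placeOf π hπ)
      refine ⟨L, ?_⟩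
      by_cases hπW : π ∈ W
      · have hπW' := hπW
        rw [hWdef, List.mem_toFinset, List.mem_map] at hπW'
        obtain ⟨r, hr, rfl⟩ := hπW'
        exact unitAt_of_isSquare L.toLoc _ (hcu.map _) (hall r hr hπ)
      · exact unitAt_twist hπ L hf.monic hf.deg (hf.reg π hπ) (not_dvd_prod hW hπ hπm hπW) hs c'
          (hl _)
  have hnorm : Algebra.norm (RatFunc k) (dn _ hs c') ≠ 0 := by
    obtain ⟨a, ha, ha'⟩ := hcn
    rw [ha']
    exact pow_ne_zero 2 ha
  have hgood := glue f hm hKn (dn _ hs c') hnorm (fun π hπ => hunit _ (by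
    intro h0
    apply BSDFF.X_not_mem_placeInfty (k := k)
    rw [← h0]
    exact BSDFF.X_mem_placeOf π hπ))
  have hfin : IsSquare (dn _ hs c') := hl4 _ ⟨hcn, hgood⟩ hall
  exact (isSquare_dn hccD0 hs c').1 hfin

end Pool.Agent.HYP
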